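import Mathlib

set_option autoImplicit false

/-! The logarithm of the derivative at an isolated simple zero, from the mean of `|log |f||` over a disc. -/

namespace Pool.Agent.W354.ZP

open MeasureTheory Filter Topology Set Metric Real

/-- the circle inequality -/
lemma circle_ge {f : ℂ → ℂ} {U : Set ℂ} (hU : IsOpen U) (hf : DifferentiableOn ℂ f U) {ρ : ℂ} {R : ℝ}
    (hR : 0 < R) (hball : closedBall ρ R ⊆ U) (h0 : f ρ = 0) (h1 : deriv f ρ ≠ 0)
    (hne : ∀ z ∈ closedBall ρ R, z ≠ ρ → f z ≠ 0) :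
    ENNReal.ofReal (2 * π * |Real.log ‖deriv f ρ‖ + Real.log R|) ≤
      ∫⁻ θ in Ioo (-π) π, ENNReal.ofReal |Real.log ‖f (circleMap ρ R θ)‖| := by
  have hpi := Real.pi_pos
  have hρU : ρ ∈ U := hball (mem_closedBall_self hR.le)
  set g : ℂ → ℂ := dslope f ρ with hg
  have hgU : DifferentiableOn ℂ g U := (Complex.differentiableOn_dslope (hU.mem_nhds hρU)).mpr hf
  have hga : AnalyticOnNhd ℂ g (closedBall ρ |R|) := by
    rw [abs_of_pos hR]
    exact (hgU.analyticOnNhd hU).mono hball
  have hgρ : g ρ = deriv f ρ := dslope_same _ _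
  have hfz : ∀ z, z ≠ ρ → f z = (z - ρ) * g z := by
    intro z hz
    rw [hg, dslope_of_ne _ hz, slope_def_field, h0, sub_zero]
    field_simp [sub_ne_zero.mpr hz]
  have hgne : ∀ z ∈ closedBall ρ |R|, g z ≠ 0 := by
    intro z hz
    rw [abs_of_pos hR] at hz
    rcases eq_or_ne z ρ with h | h
    · rw [h, hgρ]; exact h1
    · intro h2
      exact hne z hz h (by rw [hfz z h, h2, mul_zero])
  have hJ := hga.circleAverage_log_norm_of_ne_zero hgne
  -- on the circle
  have hcirc : ∀ θ : ℝ, Real.log ‖f (circleMap ρ R θ)‖ = Real.log R + Real.log ‖g (circleMap ρ R θ)‖ := by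
    intro θ
    have h2 : circleMap ρ R θ ≠ ρ := circleMap_ne_center hR.ne'
    have h3 : ‖circleMap ρ R θ - ρ‖ = R := by
      rw [circleMap_sub_center, norm_circleMap_zero, abs_of_pos hR]
    have h4 : g (circleMap ρ R θ) ≠ 0 := hgne _ (by
      rw [abs_of_pos hR, mem_closedBall, dist_eq_norm, h3])
    rw [hfz _ h2, norm_mul, h3, Real.log_mul hR.ne' (norm_ne_zero_iff.mpr h4)]
  have hgc : Continuous fun θ : ℝ => Real.log ‖g (circleMap ρ R θ)‖ := by
    rw [continuous_iff_continuousAt]
    intro θ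
    have hmem : circleMap ρ R θ ∈ closedBall ρ |R| := by
      rw [abs_of_pos hR]; exact circleMap_mem_closedBall ρ hR.le θ
    have h2 : ContinuousAt g (circleMap ρ R θ) := (hga _ hmem).continuousAt
    have h3 : ContinuousAt (fun θ : ℝ => g (circleMap ρ R θ)) θ :=
      ContinuousAt.comp (f := fun θ : ℝ => circleMap ρ R θ) h2 (continuous_circleMap ρ R).continuousAt
    exact h3.norm.log (norm_ne_zero_iff.mpr (hgne _ hmem))
  have hfc : Continuous fun θ : ℝ => Real.log ‖f (circleMap ρ R θ)‖ := by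
    simp_rw [hcirc]
    exact continuous_const.add hgc
  have hav : Real.circleAverage (Real.log ‖f ·‖) ρ R = Real.log ‖deriv f ρ‖ + Real.log R := by
    rw [← hgρ, ← hJ, Real.circleAverage_def, Real.circleAverage_def]
    simp_rw [hcirc]
    rw [intervalIntegral.integral_add intervalIntegrable_const (hgc.intervalIntegrable _ _),
      intervalIntegral.integral_const, smul_eq_mul, smul_eq_mul, smul_eq_mul]
    field_simp
    ring
  have hav2 : Real.log ‖deriv f ρ‖ + Real.log R = (2 * π)⁻¹ * ∫ θ in (-π)..π, Real.log ‖f (circleMap ρ R θ)‖ := by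
    rw [← hav, Real.circleAverage_eq_integral_add (-π), smul_eq_mul]
    congr 1
    have := intervalIntegral.integral_comp_add_right (a := 0) (b := 2 * π)
      (fun θ => Real.log ‖f (circleMap ρ R θ)‖) (-π)
    rw [this]
    congr 1 <;> ring
  have h5 : 2 * π * |Real.log ‖deriv f ρ‖ + Real.log R| ≤ ∫ θ in (-π)..π, |Real.log ‖f (circleMap ρ R θ)‖| := by
    rw [hav2, abs_mul, abs_of_pos (inv_pos.mpr (by positivity : (0:ℝ) < 2 * π)), ← mul_assoc,
      mul_inv_cancel₀ (by positivity), one_mul]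
    exact intervalIntegral.abs_integral_le_integral_abs (by linarith)
  refine (ENNReal.ofReal_le_ofReal h5).trans (le_of_eq ?_)
  rw [intervalIntegral.integral_of_le (by linarith), integral_Ioc_eq_integral_Ioo,
    ofReal_integral_eq_lintegral_ofReal]
  · exact (hfc.abs.integrableOn_Icc (a := -π) (b := π)).mono_set Ioo_subset_Icc_self
  · exact Eventually.of_forall fun t => abs_nonneg _

/-- the disc inequality -/
theorem disc_ge {f : ℂ → ℂ} {U : Set ℂ} (hU : IsOpen U) (hf : DifferentiableOn ℂ f U) (hfm : Measurable f)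
    {ρ : ℂ} {δ : ℝ} (hδ : 0 < δ) (hball : closedBall ρ δ ⊆ U) (h0 : f ρ = 0) (h1 : deriv f ρ ≠ 0)
    (hne : ∀ z ∈ closedBall ρ δ, z ≠ ρ → f z ≠ 0) :
    ENNReal.ofReal (δ ^ 2 * |Real.log ‖deriv f ρ‖ + Real.log δ|) ≤
      (∫⁻ z in ball ρ δ, ENNReal.ofReal |Real.log ‖f z‖|) + ENNReal.ofReal (2 * δ ^ 2) := by
  have hpi := Real.pi_pos
  have hpi3 := Real.pi_gt_three
  have hpi4 := Real.pi_lt_four
  set X : ℝ := |Real.log ‖deriv f ρ‖ + Real.log δ| with hX
  set F : ℂ → ENNReal := fun z => ENNReal.ofReal |Real.log ‖f z‖| with hF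
  have hFm : Measurable F := by
    rw [hF]
    have := hfm.norm
    fun_prop
  -- polar coordinates
  have hpol : ∫⁻ z in ball ρ δ, F z =
      ∫⁻ p in polarCoord.target, ENNReal.ofReal p.1 *
        (ball ρ δ).indicator F (ρ + Complex.polarCoord.symm p) := by
    rw [← lintegral_indicator measurableSet_ball, ← lintegral_add_left_eq_self _ ρ]
    exact (Complex.lintegral_comp_polarCoord_symm fun z => (ball ρ δ).indicator F (ρ + z)).symm
  have hsub : Ioo (δ / 2) δ ×ˢ Ioo (-π) π ⊆ polarCoord.target := by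
    rintro ⟨r, θ⟩ ⟨hr, hθ⟩
    exact ⟨by
      have : δ / 2 < r := hr.1
      show (0:ℝ) < r
      linarith, hθ⟩
  have hcm : ∀ r θ : ℝ, ρ + Complex.polarCoord.symm (r, θ) = circleMap ρ r θ := by
    intro r θ
    rw [Complex.polarCoord_symm_apply, circleMap, Complex.exp_mul_I]
    push_cast
    rfl
  have hmeas : Measurable fun p : ℝ × ℝ => ENNReal.ofReal p.1 * F (circleMap ρ p.1 p.2) := by
    refine (measurable_fst.ennreal_ofReal).mul (hFm.comp ?_)
    have : Continuous fun p : ℝ × ℝ => circleMap ρ p.1 p.2 := by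
      unfold circleMap
      fun_prop
    exact this.measurable
  have hlow : ∫⁻ r in Ioo (δ / 2) δ, ∫⁻ θ in Ioo (-π) π, ENNReal.ofReal r * F (circleMap ρ r θ) ≤
      ∫⁻ z in ball ρ δ, F z := by
    rw [hpol]
    calc ∫⁻ r in Ioo (δ / 2) δ, ∫⁻ θ in Ioo (-π) π, ENNReal.ofReal r * F (circleMap ρ r θ) =
        ∫⁻ p in Ioo (δ / 2) δ ×ˢ Ioo (-π) π, ENNReal.ofReal p.1 * F (circleMap ρ p.1 p.2) := by
          rw [Measure.volume_eq_prod, ← Measure.prod_restrict, lintegral_prod _ hmeas.aemeasurable]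
      _ = ∫⁻ p in Ioo (δ / 2) δ ×ˢ Ioo (-π) π, ENNReal.ofReal p.1 *
          (ball ρ δ).indicator F (ρ + Complex.polarCoord.symm p) := by
          refine setLIntegral_congr_fun (measurableSet_Ioo.prod measurableSet_Ioo) ?_
          rintro ⟨r, θ⟩ ⟨hr, hθ⟩
          simp only at hr hθ ⊢
          rw [hcm, indicator_of_mem]
          rw [mem_ball, dist_eq_norm, circleMap_sub_center, norm_circleMap_zero,
            abs_of_pos (by linarith [hr.1])]
          exact hr.2
      _ ≤ _ := lintegral_mono_set hsub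
  have hinner : ∀ r ∈ Ioo (δ / 2) δ, ENNReal.ofReal (π * δ * (X - Real.log 2)) ≤
      ∫⁻ θ in Ioo (-π) π, ENNReal.ofReal r * F (circleMap ρ r θ) := by
    intro r hr
    have hr0 : 0 < r := by linarith [hr.1]
    rw [lintegral_const_mul' _ _ ENNReal.ofReal_ne_top]
    have hsb : closedBall ρ r ⊆ closedBall ρ δ := closedBall_subset_closedBall hr.2.le
    have h2 := circle_ge hU hf hr0 (hsb.trans hball) h0 h1 fun z hz hzne => hne z (hsb hz) hzne
    refine le_trans ?_ (mul_le_mul' le_rfl h2)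
    rw [← ENNReal.ofReal_mul hr0.le]
    refine ENNReal.ofReal_le_ofReal ?_
    have h3 : X - Real.log 2 ≤ |Real.log ‖deriv f ρ‖ + Real.log r| := by
      have h4 : |Real.log δ - Real.log r| ≤ Real.log 2 := by
        rw [abs_of_nonneg (by
          have := Real.log_le_log hr0 hr.2.le
          linarith)]
        have h5 : Real.log (δ / 2) ≤ Real.log r := Real.log_le_log (by linarith) hr.1.le
        rw [Real.log_div hδ.ne' (by norm_num)] at h5
        linarith
      have h6 : X ≤ |Real.log ‖deriv f ρ‖ + Real.log r| + |Real.log δ - Real.log r| := by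
        rw [hX]
        have := abs_add_le (Real.log ‖deriv f ρ‖ + Real.log r) (Real.log δ - Real.log r)
        rwa [show Real.log ‖deriv f ρ‖ + Real.log r + (Real.log δ - Real.log r) =
          Real.log ‖deriv f ρ‖ + Real.log δ by ring] at this
      linarith
    have h7 := abs_nonneg (Real.log ‖deriv f ρ‖ + Real.log r)
    calc π * δ * (X - Real.log 2) ≤ π * δ * |Real.log ‖deriv f ρ‖ + Real.log r| := by gcongr
      _ ≤ π * (2 * r) * |Real.log ‖deriv f ρ‖ + Real.log r| := by
          gcongr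
          linarith [hr.1]
      _ = r * (2 * π * |Real.log ‖deriv f ρ‖ + Real.log r|) := by ring
  have hmain : ENNReal.ofReal (π * δ * (X - Real.log 2)) * ENNReal.ofReal (δ / 2) ≤
      ∫⁻ z in ball ρ δ, F z := by
    refine le_trans ?_ hlow
    calc ENNReal.ofReal (π * δ * (X - Real.log 2)) * ENNReal.ofReal (δ / 2) =
        ∫⁻ _ in Ioo (δ / 2) δ, ENNReal.ofReal (π * δ * (X - Real.log 2)) := by
          rw [setLIntegral_const, Real.volume_Ioo]
          congr 2; ring
      _ ≤ _ := setLIntegral_mono' measurableSet_Ioo fun r hr => hinner r hr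
  rw [← ENNReal.ofReal_mul' (by positivity)] at hmain
  have hX0 : 0 ≤ X := abs_nonneg _
  have hl2 := Real.log_two_lt_d9
  have hl20 := Real.log_two_gt_d9
  calc ENNReal.ofReal (δ ^ 2 * X) ≤ ENNReal.ofReal (π * δ * (X - Real.log 2) * (δ / 2) + 2 * δ ^ 2) := by
        refine ENNReal.ofReal_le_ofReal ?_
        have e : π * δ * (X - Real.log 2) * (δ / 2) + 2 * δ ^ 2 =
          δ ^ 2 * (π / 2 * X + (2 - π / 2 * Real.log 2)) := by ring
        rw [e]
        refine mul_le_mul_of_nonneg_left ?_ (by positivity)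
        nlinarith
    _ ≤ ENNReal.ofReal (π * δ * (X - Real.log 2) * (δ / 2)) + ENNReal.ofReal (2 * δ ^ 2) :=
        ENNReal.ofReal_add_le
    _ ≤ _ := by gcongr

end Pool.Agent.W354.ZP
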