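import Pool.Agent.W354.ZP.LogI
import Pool.Agent.W354.ZP.Disc

set_option autoImplicit false

/-! The integral of `|log |ζ||` over a thin rectangle around the critical line. -/

namespace Pool.Agent.W354.ZP

open MeasureTheory Filter Topology Set Pool.Agent.H306R2 Pool.Agent.W184

lemma abs_log_le {x p : ℝ} (hx : 0 ≤ x) (hp : 0 < p) :
    |Real.log x| ≤ max (-Real.log x) 0 + x ^ p / p := by
  have hxp : 0 ≤ x ^ p / p := by positivity
  rcases le_total (Real.log x) 0 with h | h
  · rw [abs_of_nonpos h]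
    have := le_max_left (-Real.log x) 0
    linarith
  · rw [abs_of_nonneg h]
    have h2 := le_max_right (-Real.log x) 0
    have h3 := Real.log_le_rpow_div hx hp
    linarith

/-- `|log |ζ(σ+iu)||` -/
noncomputable def Ab (σ u : ℝ) : ENNReal := ENNReal.ofReal |Real.log (zn σ u)|

theorem ab_int {σ T p : ℝ} (h1 : 3 / 8 ≤ σ) (h2 : σ ≤ 3 / 4) (hT : 1 ≤ T) (hp0 : 0 < p) (hp1 : p ≤ 1) :
    ∫⁻ u in Ioo 0 T, Ab σ u ≤
      ENNReal.ofReal (Real.exp 21 / p * ((∫ t in (0:ℝ)..(2 * T), zn σ t ^ p) + T)) := by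
  have hzc : Continuous fun u => zn σ u ^ p := zp_cont (by linarith) hp0
  have hz0 : ∀ u, 0 ≤ zn σ u ^ p := fun u => Real.rpow_nonneg (zn_nonneg _ _) _
  set M : ℝ := ∫ t in (0:ℝ)..(2 * T), zn σ t ^ p with hM
  have hM0 : 0 ≤ M := intervalIntegral.integral_nonneg (by linarith) fun x _ => hz0 x
  have hneg := neg_int h1 h2 hT hp0 hp1
  rw [← hM] at hneg
  have hpos : ∫⁻ u in Ioo 0 T, ENNReal.ofReal (zn σ u ^ p / p) ≤ ENNReal.ofReal (M / p) := by
    rw [← ofReal_integral_eq_lintegral_ofReal]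
    · refine ENNReal.ofReal_le_ofReal ?_
      rw [← integral_Ioc_eq_integral_Ioo, ← intervalIntegral.integral_of_le (by linarith),
        intervalIntegral.integral_div]
      refine div_le_div_of_nonneg_right ?_ hp0.le
      exact intervalIntegral.integral_mono_interval le_rfl (by linarith) (by linarith)
        (Eventually.of_forall fun x => hz0 x) (hzc.intervalIntegrable _ _)
    · exact ((hzc.div_const p).integrableOn_Icc (a := 0) (b := T)).mono_set Ioo_subset_Icc_self
    · exact Eventually.of_forall fun u => div_nonneg (hz0 u) hp0.le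
  calc ∫⁻ u in Ioo 0 T, Ab σ u ≤ ∫⁻ u in Ioo 0 T, (Ng σ u + ENNReal.ofReal (zn σ u ^ p / p)) := by
        refine lintegral_mono fun u => ?_
        unfold Ab Ng
        rw [← ENNReal.ofReal_add (le_max_right _ _) (div_nonneg (hz0 u) hp0.le)]
        exact ENNReal.ofReal_le_ofReal (abs_log_le (zn_nonneg _ _) hp0)
    _ = (∫⁻ u in Ioo 0 T, Ng σ u) + ∫⁻ u in Ioo 0 T, ENNReal.ofReal (zn σ u ^ p / p) :=
        lintegral_add_left (Ng_meas (by linarith)) _
    _ ≤ ENNReal.ofReal (Real.exp 20 / p * (M + T)) + ENNReal.ofReal (M / p) := by gcongr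
    _ ≤ _ := by
        rw [← ENNReal.ofReal_add (by positivity) (by positivity)]
        refine ENNReal.ofReal_le_ofReal ?_
        have e21 : Real.exp 21 = Real.exp 20 * Real.exp 1 := by rw [← Real.exp_add]; norm_num
        have g1 := Real.exp_one_gt_d9
        have g20 : 1 ≤ Real.exp 20 := Real.one_le_exp (by norm_num)
        have e : Real.exp 20 / p * (M + T) + M / p = (1 / p) * (Real.exp 20 * (M + T) + M) := by ring
        have e2 : Real.exp 21 / p * (M + T) = (1 / p) * (Real.exp 20 * Real.exp 1 * (M + T)) := by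
          rw [e21]; ring
        rw [e, e2]
        refine mul_le_mul_of_nonneg_left ?_ (by positivity)
        nlinarith [mul_nonneg (show 0 ≤ Real.exp 20 - 1 by linarith) hM0,
          mul_nonneg (show 0 ≤ Real.exp 20 by linarith) (show 0 ≤ M + T by linarith)]

lemma zeta_meas : Measurable riemannZeta := by
  refine measurable_of_continuousOn_compl_singleton 1 ?_
  intro z hz
  exact (differentiableAt_riemannZeta hz).continuousAt.continuousWithinAt

/-- the rectangle of half width `δ` and height `T` on the critical line -/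
def Rect (δ T : ℝ) : Set ℂ := {z : ℂ | z.re ∈ Ioo (1 / 2 - δ) (1 / 2 + δ) ∧ z.im ∈ Ioo 0 T}

lemma Rect_meas (δ T : ℝ) : MeasurableSet (Rect δ T) :=
  (Complex.measurable_re measurableSet_Ioo).inter (Complex.measurable_im measurableSet_Ioo)

lemma rect_eq (δ T : ℝ) : ∫⁻ z in Rect δ T, ENNReal.ofReal |Real.log ‖riemannZeta z‖| =
    ∫⁻ σ in Ioo (1 / 2 - δ) (1 / 2 + δ), ∫⁻ u in Ioo 0 T, Ab σ u := by
  have hFm : Measurable fun z : ℂ => ENNReal.ofReal |Real.log ‖riemannZeta z‖| := by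
    have := zeta_meas.norm
    fun_prop
  rw [← lintegral_indicator (Rect_meas δ T)]
  rw [← (Complex.volume_preserving_equiv_real_prod.symm).lintegral_comp_emb
    Complex.measurableEquivRealProd.symm.measurableEmbedding]
  have e1 : ∀ q : ℝ × ℝ, (Rect δ T).indicator (fun z : ℂ => ENNReal.ofReal |Real.log ‖riemannZeta z‖|)
      (Complex.measurableEquivRealProd.symm q) =
      (Ioo (1 / 2 - δ) (1 / 2 + δ) ×ˢ Ioo 0 T).indicator (fun q : ℝ × ℝ => Ab q.1 q.2) q := by
    intro q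
    have e2 : Complex.measurableEquivRealProd.symm q = (q.1 : ℂ) + q.2 * Complex.I := by
      apply Complex.ext <;> simp
    have e3 : (Complex.measurableEquivRealProd.symm q ∈ Rect δ T) ↔
        q ∈ Ioo (1 / 2 - δ) (1 / 2 + δ) ×ˢ Ioo 0 T := by
      rw [e2]
      simp [Rect]
    by_cases h : q ∈ Ioo (1 / 2 - δ) (1 / 2 + δ) ×ˢ Ioo 0 T
    · rw [indicator_of_mem h, indicator_of_mem (e3.mpr h), e2]
      rfl
    · rw [indicator_of_notMem h, indicator_of_notMem (fun h' => h (e3.mp h'))]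
  simp_rw [e1]
  rw [lintegral_indicator (measurableSet_Ioo.prod measurableSet_Ioo), Measure.volume_eq_prod,
    ← Measure.prod_restrict, lintegral_prod]
  refine Measurable.aemeasurable ?_
  have : (fun q : ℝ × ℝ => Ab q.1 q.2) =
      (fun z : ℂ => ENNReal.ofReal |Real.log ‖riemannZeta z‖|) ∘ (fun q : ℝ × ℝ => (q.1 : ℂ) + q.2 * Complex.I) := by
    funext q; rfl
  rw [this]
  refine hFm.comp ?_
  fun_prop

theorem strip_area : ∀ᶠ X : ℝ in atTop, ∀ v : ℕ, Adm X v → ∀ δ : ℝ, 1 / X ≤ δ → δ ≤ 10 / Real.log X →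
    ∫⁻ z in Rect δ (X / 2), ENNReal.ofReal |Real.log ‖riemannZeta z‖| ≤
      ENNReal.ofReal (Real.exp 60 * (v * X * δ)) := by
  filter_upwards [uni_near, sqrtlog_ev 2000, eventually_ge_atTop 100] with X hU hL hX v hv δ hδ1 hδ2
  have hv' := hv
  obtain ⟨hv2, -, -⟩ := hv
  obtain ⟨-, -, h3, h4⟩ := kv hv2
  have hv0 : (0:ℝ) < v := by exact_mod_cast (by omega : 0 < v)
  have hX0 : 0 < X := by linarith
  have hL0 : 0 < Real.log X := by linarith
  have hδ0 : 0 < δ := lt_of_lt_of_le (by positivity) hδ1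
  have hδ3 : δ ≤ 1 / 8 := by
    refine hδ2.trans ?_
    rw [div_le_div_iff₀ hL0 (by norm_num)]; linarith
  have hX3 : X ^ (-(3:ℝ)) = 1 / X ^ 3 := by
    rw [Real.rpow_neg hX0.le, one_div]
    congr 1
    exact_mod_cast Real.rpow_natCast X 3
  rw [rect_eq]
  set B1 : ENNReal := ENNReal.ofReal (Real.exp 21 / (2 / (v:ℝ)) * (25 * X ^ 2)) with hB1
  set B2 : ENNReal := ENNReal.ofReal (Real.exp 21 / (2 / (v:ℝ)) * (Real.exp 32 * X + X)) with hB2
  have hE : 0 < Real.exp 21 / (2 / (v:ℝ)) := by positivity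
  have hpt : ∀ σ ∈ Ioo (1 / 2 - δ) (1 / 2 + δ), ∫⁻ u in Ioo 0 (X / 2), Ab σ u ≤
      B2 + (Ioo (1 / 2 - X ^ (-(3:ℝ))) (1 / 2 + X ^ (-(3:ℝ)))).indicator (fun _ => B1) σ := by
    intro σ hσ
    have a0 : |σ - 1 / 2| < δ := by rw [abs_lt]; constructor <;> linarith [hσ.1, hσ.2]
    have a1 := ab_int (σ := σ) (T := X / 2) (p := 2 / (v:ℝ)) (by linarith [hσ.1]) (by linarith [hσ.2])
      (by linarith) h3 h4
    rw [show 2 * (X / 2) = X by ring] at a1
    by_cases h : σ ∈ Ioo (1 / 2 - X ^ (-(3:ℝ))) (1 / 2 + X ^ (-(3:ℝ)))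
    · rw [indicator_of_mem h]
      refine a1.trans (le_trans (ENNReal.ofReal_le_ofReal ?_) le_add_self)
      refine mul_le_mul_of_nonneg_left ?_ hE.le
      have a2 : ∫ t in (0:ℝ)..X, zn σ t ^ (2 / (v:ℝ)) ≤ (X - 0) * (12 * (1 + X)) := by
        refine int_le_of_le (zp_cont (by linarith [hσ.2]) h3) hX0.le fun x hx => ?_
        refine (zp_le h3 h4 (by linarith [hσ.1]) (by linarith [hσ.2])).trans ?_
        rw [abs_of_nonneg hx.1]
        linarith [hx.2]
      nlinarith
    · rw [indicator_of_notMem h, add_zero]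
      refine a1.trans (ENNReal.ofReal_le_ofReal ?_)
      refine mul_le_mul_of_nonneg_left ?_ hE.le
      have a2 : X ^ (-(3:ℝ)) ≤ |σ - 1 / 2| := by
        by_contra hc
        push Not at hc
        rw [abs_lt] at hc
        exact h ⟨by linarith [hc.1], by linarith [hc.2]⟩
      have a3 := hU v hv' σ a2 (a0.le.trans hδ2)
      linarith
  refine (setLIntegral_mono' measurableSet_Ioo hpt).trans ?_
  rw [lintegral_add_left measurable_const, setLIntegral_const, Real.volume_Ioo]
  have hX3p : 0 < X ^ (-(3:ℝ)) := Real.rpow_pos_of_pos hX0 _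
  have hind : ∫⁻ σ in Ioo (1 / 2 - δ) (1 / 2 + δ),
      (Ioo (1 / 2 - X ^ (-(3:ℝ))) (1 / 2 + X ^ (-(3:ℝ)))).indicator (fun _ => B1) σ ≤
      B1 * ENNReal.ofReal (2 * X ^ (-(3:ℝ))) := by
    refine (setLIntegral_le_lintegral _ _).trans ?_
    rw [lintegral_indicator measurableSet_Ioo, setLIntegral_const, Real.volume_Ioo]
    refine le_of_eq ?_
    congr 2; ring
  refine (add_le_add le_rfl hind).trans ?_
  rw [hB1, hB2, ← ENNReal.ofReal_mul (by positivity), ← ENNReal.ofReal_mul (by positivity),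
    ← ENNReal.ofReal_add]
  · refine ENNReal.ofReal_le_ofReal ?_
    rw [hX3]
    have e60 : Real.exp 60 = Real.exp 21 * Real.exp 32 * Real.exp 7 := by
      rw [← Real.exp_add, ← Real.exp_add]; norm_num
    have g32 : 1 ≤ Real.exp 32 := Real.one_le_exp (by norm_num)
    have g7 : 8 ≤ Real.exp 7 := by linarith [Real.add_one_le_exp (7:ℝ)]
    have e1 : Real.exp 21 / (2 / (v:ℝ)) * (Real.exp 32 * X + X) * (1 / 2 + δ - (1 / 2 - δ)) +
        Real.exp 21 / (2 / (v:ℝ)) * (25 * X ^ 2) * (2 * (1 / X ^ 3)) =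
        (Real.exp 21 * v) * ((Real.exp 32 + 1) * (X * δ) + 25 / X) := by
      field_simp
      ring
    rw [e1, e60]
    have a1 : 25 / X ≤ X * δ := by
      have b1 : 1 ≤ X * δ := by
        have := mul_le_mul_of_nonneg_left hδ1 hX0.le
        rwa [mul_one_div_cancel hX0.ne'] at this
      have b2 : 25 / X ≤ 1 := by rw [div_le_one hX0]; linarith
      linarith
    have hXd : 0 ≤ X * δ := by positivity
    have a2 : (Real.exp 32 + 1) * (X * δ) + 25 / X ≤ Real.exp 32 * Real.exp 7 * (X * δ) := by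
      nlinarith [mul_le_mul_of_nonneg_right (show Real.exp 32 + 2 ≤ Real.exp 32 * Real.exp 7 by nlinarith) hXd]
    calc (Real.exp 21 * v) * ((Real.exp 32 + 1) * (X * δ) + 25 / X) ≤
        (Real.exp 21 * v) * (Real.exp 32 * Real.exp 7 * (X * δ)) := by gcongr
      _ = _ := by ring
  · have : (1:ℝ) / 2 + δ - (1 / 2 - δ) = 2 * δ := by ring
    rw [this]; positivity
  · positivity

end Pool.Agent.W354.ZP
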