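import Pool.Agent.W184.Close

set_option autoImplicit false

/-! Coefficient sums of the generalised divisor function, uniformly in the exponent. -/

namespace Pool.Agent.W354.ZP

open Finset Pool.Agent.H306R2 Pool.Agent.W184

lemma lc_sq_le {κ : ℝ} (m : ℕ) : lc κ m ^ 2 ≤ lc (κ ^ 2) m := by
  induction m with
  | zero => simp [lc_zero]
  | succ m ih =>
    rw [lc_succ, lc_succ, mul_pow]
    refine mul_le_mul ih ?_ (by positivity) (lc_nonneg (by positivity) m)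
    rw [div_pow, div_le_div_iff₀ (by positivity) (by positivity)]
    have h1 : (κ ^ 2 + m) * ((m:ℝ) + 1) ^ 2 - (κ + m) ^ 2 * ((m:ℝ) + 1) =
        ((m:ℝ) + 1) * (m * (κ - 1) ^ 2) := by ring
    have h2 : 0 ≤ ((m:ℝ) + 1) * (m * (κ - 1) ^ 2) := by positivity
    linarith

lemma dv_sq_le {κ : ℝ} (n : ℕ) : dv κ n ^ 2 ≤ dv (κ ^ 2) n := by
  unfold dv
  split_ifs
  · simp
  · unfold Finsupp.prod
    rw [← Finset.prod_pow]
    exact Finset.prod_le_prod (fun p _ => by positivity) fun p _ => lc_sq_le _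

lemma Dp_one (A : ArithmeticFunction ℝ) (X : ℝ) :
    Dp A X 1 = ((∑ n ∈ Icc 1 ⌊X⌋₊, A n / n : ℝ) : ℂ) := by
  unfold Dp
  push_cast
  refine sum_congr rfl fun n _ => ?_
  rw [Complex.cpow_neg_one, div_eq_mul_inv]

lemma coef_sum {m N : ℕ} (hm : 1 ≤ m) (hN : 1 ≤ N) :
    (∑ n ∈ Icc 1 N, dv (1 / (m:ℝ)) n / n) ^ m ≤ 1 + m * Real.log N := by
  have hN1 : (1:ℝ) ≤ N := by exact_mod_cast hN
  have hm0 : (m:ℝ) ≠ 0 := by exact_mod_cast (by omega : m ≠ 0)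
  have hκ : (0:ℝ) ≤ 1 / (m:ℝ) := by positivity
  set A := tr (dA (1 / (m:ℝ))) (N:ℝ) with hA
  have hAs : ∀ n : ℕ, (N:ℝ) < n → A n = 0 := fun n hn => tr_supp _ _ _ hn
  obtain ⟨h1, h2⟩ := Dp_pow A N hN1 hAs 1 m
  rw [Dp_one, Dp_one, ← Complex.ofReal_pow, Complex.ofReal_inj] at h2
  have e1 : ∑ n ∈ Icc 1 N, dv (1 / (m:ℝ)) n / n = ∑ n ∈ Icc 1 ⌊(N:ℝ)⌋₊, A n / n := by
    rw [Nat.floor_natCast]
    refine sum_congr rfl fun n hn => ?_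
    rw [mem_Icc] at hn
    rw [hA, tr_apply, if_pos (by exact_mod_cast hn.2), dA_apply]
  rw [e1, ← h2]
  have hc1 : ∀ n, (A ^ m) n ≤ 1 := by
    intro n
    have := tr_pow_le hκ (N:ℝ) m n
    refine this.trans ?_
    rw [show (m:ℝ) * (1 / m) = 1 by field_simp]
    exact dv_le_one zero_le_one le_rfl n
  have e2 : ⌊(N:ℝ) ^ m⌋₊ = N ^ m := by exact_mod_cast Nat.floor_natCast (N ^ m)
  rw [e2]
  calc ∑ n ∈ Icc 1 (N ^ m), (A ^ m) n / n ≤ ∑ n ∈ Icc 1 (N ^ m), (1:ℝ) / n :=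
        sum_le_sum fun n _ => div_le_div_of_nonneg_right (hc1 n) (by positivity)
    _ ≤ 1 + Real.log ((N ^ m : ℕ) : ℝ) := harm_le _
    _ = 1 + m * Real.log N := by rw [Nat.cast_pow, Real.log_pow]

/-- the mean square coefficient sum, uniformly in `v ≥ √loglog T` -/
lemma sq_sum {v N : ℕ} {T : ℝ} (hv : 1 ≤ v) (hN : 1 ≤ N) (hNT : (N:ℝ) ≤ T)
    (hT : 1 ≤ Real.log T) (hvT : Real.log (Real.log T) ≤ (v:ℝ) ^ 2) {σ : ℝ} (hσ : 1 / 2 ≤ σ) :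
    ∑ n ∈ Icc 1 N, dv (1 / (v:ℝ)) n ^ 2 * (n : ℝ) ^ (-(2 * σ)) ≤ Real.exp 3 := by
  have hv0 : (0:ℝ) < v := by exact_mod_cast (by omega : 0 < v)
  have hv1 : (1:ℝ) ≤ v := by exact_mod_cast hv
  have hN0 : (0:ℝ) < N := by exact_mod_cast (by omega : 0 < N)
  have h1 : ∑ n ∈ Icc 1 N, dv (1 / (v:ℝ)) n ^ 2 * (n : ℝ) ^ (-(2 * σ)) ≤
      ∑ n ∈ Icc 1 N, dv (1 / ((v ^ 2 : ℕ):ℝ)) n / n := by
    refine sum_le_sum fun n hn => ?_
    rw [mem_Icc] at hn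
    have hn1 : (1:ℝ) ≤ n := by exact_mod_cast hn.1
    have a1 := dv_sq_le (κ := 1 / (v:ℝ)) n
    rw [show (1 / (v:ℝ)) ^ 2 = 1 / ((v ^ 2 : ℕ):ℝ) by push_cast; field_simp] at a1
    have a2 : (n:ℝ) ^ (-(2 * σ)) ≤ (n:ℝ) ^ (-1:ℝ) :=
      Real.rpow_le_rpow_of_exponent_le hn1 (by linarith)
    rw [Real.rpow_neg_one] at a2
    rw [div_eq_mul_inv]
    exact mul_le_mul a1 a2 (by positivity) (dv_nonneg (by positivity) n)
  refine h1.trans ?_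
  have h2 := coef_sum (m := v ^ 2) (N := N) (Nat.one_le_pow _ _ (by omega)) hN
  set S : ℝ := ∑ n ∈ Icc 1 N, dv (1 / ((v ^ 2 : ℕ):ℝ)) n / n with hS
  have hS0 : 0 ≤ S := sum_nonneg fun n _ => div_nonneg (dv_nonneg (by positivity) n) (by positivity)
  have hlogN : Real.log N ≤ Real.log T := Real.log_le_log hN0 hNT
  have hlogN0 : 0 ≤ Real.log N := Real.log_natCast_nonneg N
  have hV : (1:ℝ) ≤ (v:ℝ) ^ 2 := one_le_pow₀ hv1
  have hLT : 0 < Real.log T := by linarith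
  -- `1 + v² log N ≤ exp (3 v²)`
  have h3 : 1 + ((v ^ 2 : ℕ):ℝ) * Real.log N ≤ Real.exp 3 ^ (v ^ 2) := by
    push_cast
    have b1 : Real.log T ≤ Real.exp ((v:ℝ) ^ 2) := by
      rw [← Real.log_le_iff_le_exp hLT]; exact hvT
    have b2 : 1 + (v:ℝ) ^ 2 ≤ Real.exp ((v:ℝ) ^ 2) := by
      linarith [Real.add_one_le_exp ((v:ℝ) ^ 2)]
    have b3 : 1 + (v:ℝ) ^ 2 * Real.log N ≤ (1 + (v:ℝ) ^ 2) * Real.log T := by
      have : (v:ℝ) ^ 2 * Real.log N ≤ (v:ℝ) ^ 2 * Real.log T := by gcongr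
      linarith
    have b4 : (1 + (v:ℝ) ^ 2) * Real.log T ≤ Real.exp ((v:ℝ) ^ 2) * Real.exp ((v:ℝ) ^ 2) := by
      gcongr
    have b5 : Real.exp 3 ^ (v ^ 2) = Real.exp (3 * (v:ℝ) ^ 2) := by
      rw [← Real.exp_nat_mul]; push_cast; congr 1; ring
    rw [b5]
    refine b3.trans (b4.trans ?_)
    rw [← Real.exp_add]
    refine Real.exp_le_exp.mpr ?_
    nlinarith
  refine le_of_pow_le_pow_left₀ (n := v ^ 2) (by positivity) (Real.exp_pos 3).le (h2.trans h3)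

end Pool.Agent.W354.ZP
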