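import Pool.Agent.W354.ZP.Area
import Pool.Agent.H344R2.Scale
import Pool.Agent.H370R2.Expl3

set_option autoImplicit false

/-! Counting the zeros at which the derivative has the expected size. -/

namespace Pool.Agent.W354.ZP

open MeasureTheory Filter Topology Set Metric

/-- the property of a zero: simple, on the line, and the derivative has size `log γ · exp (O(√loglog γ))` -/
def Qd (C : ℝ) (s : ℂ) : Prop :=
  s.re = 1 / 2 ∧ H370.mult riemannZeta s = 1 ∧ 3 < s.im ∧
    |Real.log ‖deriv riemannZeta s‖ - Real.log (Real.log s.im)| ≤ C * Real.sqrt (Real.log (Real.log s.im))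

lemma deriv_ne_of_simple {s : ℂ} (hs : s ≠ 1) (h0 : riemannZeta s = 0)
    (h1 : H370.mult riemannZeta s = 1) : deriv riemannZeta s ≠ 0 := by
  have hd : DifferentiableOn ℂ riemannZeta ({1}ᶜ : Set ℂ) := fun z hz =>
    (differentiableAt_riemannZeta hz).differentiableWithinAt
  have ha : AnalyticAt ℂ riemannZeta s := hd.analyticAt (isOpen_compl_singleton.mem_nhds hs)
  unfold H370.mult at h1
  have h2 : analyticOrderAt riemannZeta s = 1 := by
    unfold analyticOrderNatAt at h1
    have h3 : analyticOrderAt riemannZeta s ≠ ⊤ := by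
      intro h4; rw [h4] at h1; simp at h1
    rw [← ENat.coe_toNat h3, h1]; rfl
  have h3 := ha.analyticOrderAt_deriv_add_one
  simp only [h0, sub_zero] at h3
  rw [h2] at h3
  have h4 : analyticOrderAt (deriv riemannZeta) s = 0 := by
    revert h3
    generalize analyticOrderAt (deriv riemannZeta) s = x
    intro h3
    cases x with
    | top => simp at h3
    | coe n =>
      have h6 : n + 1 = 1 := by exact_mod_cast h3
      have h7 : n = 0 := by omega
      rw [h7]; rfl
  exact ha.deriv.analyticOrderAt_eq_zero.mp h4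

/-- the sum over the isolated zeros of a dyadic block -/
theorem iso_sum : ∀ᶠ T : ℝ in atTop, ∀ v : ℕ, Adm (5 * T) v → ∀ r : ℝ, 0 < r → r ≤ 1 / 3 →
    1 / (5 * T) ≤ Real.pi * r / Real.log T → ∀ S : Finset ℂ,
    (↑S : Set ℂ) ⊆ H344.isoSet riemannZeta T (2 * Real.pi * r / Real.log T) (4 * Real.pi / 5 / Real.log T) →
    ∑ s ∈ S, (Real.pi * r / Real.log T) ^ 2 *
      |Real.log ‖deriv riemannZeta s‖ + Real.log (Real.pi * r / Real.log T)| ≤
      Real.exp 60 * (v * (5 * T) * (Real.pi * r / Real.log T)) +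
        S.card * (2 * (Real.pi * r / Real.log T) ^ 2) := by
  have h5T : Tendsto (fun T : ℝ => 5 * T) atTop atTop := tendsto_id.const_mul_atTop (by norm_num)
  filter_upwards [h5T.eventually strip_area, sqrtlog_ev 2000, eventually_ge_atTop 100]
    with T hA hL hT v hv r hr0 hr1 hδ1 S hS
  have hpi := Real.pi_pos
  have hpi3 := Real.pi_gt_three
  have hpi4 := Real.pi_lt_d2
  have hT0 : 0 < T := by linarith
  have hL0 : 0 < Real.log T := by linarith
  set L : ℝ := Real.log T with hLd
  set δ : ℝ := Real.pi * r / L with hδ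
  have hδ0 : 0 < δ := by positivity
  have hδ2 : δ ≤ 10 / Real.log (5 * T) := by
    have h1 : Real.log (5 * T) ≤ 2 * L := by
      rw [Real.log_mul (by norm_num) hT0.ne', ← hLd]
      have := Real.log_le_sub_one_of_pos (show (0:ℝ) < 5 by norm_num)
      linarith
    have h2 : 0 < Real.log (5 * T) := Real.log_pos (by linarith)
    rw [hδ, div_le_div_iff₀ hL0 h2]
    have h3 : Real.pi * r ≤ 2 := by nlinarith
    calc Real.pi * r * Real.log (5 * T) ≤ 2 * (2 * L) := by gcongr
      _ ≤ 10 * L := by linarith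
  have hδs : δ ≤ 1 / 100 := by
    rw [hδ, div_le_iff₀ hL0]; nlinarith
  have harea := hA v hv δ hδ1 hδ2
  rw [show 5 * T / 2 = 5 / 2 * T by ring] at harea
  set F : ℂ → ENNReal := fun z => ENNReal.ofReal |Real.log ‖riemannZeta z‖| with hF
  -- properties of the points of `S`
  have hS' : ∀ s ∈ S, s ∈ H344.isoSet riemannZeta T (2 * Real.pi * r / L) (4 * Real.pi / 5 / L) :=
    fun s hs => hS (by exact_mod_cast hs)
  have hdist : ∀ s ∈ S, ∀ s' ∈ S, s ≠ s' → 2 * δ < |s'.im - s.im| := by
    intro s hs s' hs' hne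
    obtain ⟨⟨a1, a2, a3, a4, a5⟩, a6, a7, a8⟩ := hS' s hs
    obtain ⟨⟨b1, b2, b3, b4, b5⟩, b6, b7, b8⟩ := hS' s' hs'
    by_contra hc
    push Not at hc
    have h1 := a8 s' b5 b1 b2 hne.symm (by
      refine hc.trans (le_of_eq ?_)
      rw [hδ]; ring)
    rw [b6] at h1
    simp only [sub_self, abs_zero] at h1
    have : 0 < 4 * Real.pi / 5 / L := by positivity
    linarith
  have hdisj : (↑S : Set ℂ).PairwiseDisjoint fun s => ball s δ := by
    intro s hs s' hs' hne
    have h1 := hdist s (by exact_mod_cast hs) s' (by exact_mod_cast hs') hne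
    refine ball_disjoint_ball ?_
    rw [dist_comm, dist_eq_norm]
    have h2 := Complex.abs_im_le_norm (s' - s)
    rw [Complex.sub_im] at h2
    linarith
  have hsub : ∀ s ∈ S, ball s δ ⊆ Rect δ (5 / 2 * T) := by
    intro s hs z hz
    obtain ⟨⟨a1, a2, a3, a4, a5⟩, a6, a7, a8⟩ := hS' s hs
    rw [mem_ball, dist_eq_norm] at hz
    have h1 := (Complex.abs_re_le_norm (z - s)).trans_lt hz
    have h2 := (Complex.abs_im_le_norm (z - s)).trans_lt hz
    rw [Complex.sub_re, a6, abs_lt] at h1
    rw [Complex.sub_im, abs_lt] at h2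
    exact ⟨⟨by linarith [h1.1], by linarith [h1.2]⟩, ⟨by linarith [h2.1], by linarith [h2.2]⟩⟩
  have hdiscs : ∀ s ∈ S, ENNReal.ofReal (δ ^ 2 * |Real.log ‖deriv riemannZeta s‖ + Real.log δ|) ≤
      (∫⁻ z in ball s δ, F z) + ENNReal.ofReal (2 * δ ^ 2) := by
    intro s hs
    obtain ⟨⟨a1, a2, a3, a4, a5⟩, a6, a7, a8⟩ := hS' s hs
    have hsU : closedBall s δ ⊆ ({1}ᶜ : Set ℂ) := by
      intro z hz
      rw [mem_closedBall, dist_eq_norm] at hz
      rw [mem_compl_iff, mem_singleton_iff]
      rintro rfl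
      have h2 := (Complex.abs_im_le_norm (1 - s)).trans hz
      rw [Complex.sub_im, Complex.one_im, zero_sub, abs_neg, abs_of_pos (by linarith)] at h2
      linarith
    have hs1 : s ≠ 1 := fun h => hsU (mem_closedBall_self hδ0.le) (by rw [h]; rfl)
    refine disc_ge isOpen_compl_singleton (fun z hz => (differentiableAt_riemannZeta hz).differentiableWithinAt)
      zeta_meas hδ0 hsU a5 (deriv_ne_of_simple hs1 a5 a7) ?_
    intro z hz hzs h0
    rw [mem_closedBall, dist_eq_norm] at hz
    have h1 := (Complex.abs_re_le_norm (z - s)).trans hz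
    have h2 := (Complex.abs_im_le_norm (z - s)).trans hz
    rw [Complex.sub_re, a6] at h1
    rw [Complex.sub_im] at h2
    have h1' := abs_le.mp h1
    have h3 := a8 z h0 (by linarith) (by linarith) hzs (by
      refine h2.trans ?_
      rw [hδ]
      refine div_le_div_of_nonneg_right ?_ hL0.le
      nlinarith)
    have h4 : δ ≤ 4 * Real.pi / 5 / L := by
      rw [hδ]
      refine div_le_div_of_nonneg_right ?_ hL0.le
      nlinarith
    linarith
  have hsum : ∑ s ∈ S, ENNReal.ofReal (δ ^ 2 * |Real.log ‖deriv riemannZeta s‖ + Real.log δ|) ≤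
      ENNReal.ofReal (Real.exp 60 * (v * (5 * T) * δ)) + ENNReal.ofReal (S.card * (2 * δ ^ 2)) := by
    calc ∑ s ∈ S, ENNReal.ofReal (δ ^ 2 * |Real.log ‖deriv riemannZeta s‖ + Real.log δ|) ≤
        ∑ s ∈ S, ((∫⁻ z in ball s δ, F z) + ENNReal.ofReal (2 * δ ^ 2)) := Finset.sum_le_sum hdiscs
      _ = (∑ s ∈ S, ∫⁻ z in ball s δ, F z) + S.card * ENNReal.ofReal (2 * δ ^ 2) := by
          rw [Finset.sum_add_distrib, Finset.sum_const, nsmul_eq_mul]
      _ = (∫⁻ z in ⋃ s ∈ S, ball s δ, F z) + S.card * ENNReal.ofReal (2 * δ ^ 2) := by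
          rw [lintegral_biUnion_finset hdisj fun s _ => measurableSet_ball]
      _ ≤ (∫⁻ z in Rect δ (5 / 2 * T), F z) + S.card * ENNReal.ofReal (2 * δ ^ 2) := by
          refine add_le_add (lintegral_mono_set (iUnion₂_subset hsub)) le_rfl
      _ ≤ _ := by
          refine add_le_add harea (le_of_eq ?_)
          rw [ENNReal.ofReal_mul (Nat.cast_nonneg _), ENNReal.ofReal_natCast]
  rw [← ENNReal.ofReal_sum_of_nonneg (fun s _ => by positivity), ← ENNReal.ofReal_add (by positivity)
    (by positivity), ENNReal.ofReal_le_ofReal_iff (by positivity)] at hsum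
  exact hsum

end Pool.Agent.W354.ZP
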