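import Pool.Agent.H370R2.Expl1

set_option autoImplicit false

/-! `2 - c_MT⁻¹ ≥ 0.6725`. -/

namespace Pool.Agent.W354.ZP

open Complex

lemma exp_num10 : |Real.cos (1 / Real.sqrt 2) - (1 - 1 / 4 + 1 / 96 - 1 / 5760 + 1 / 645120)| ≤ 1 / 10 ^ 8 ∧
    |Real.sqrt 2 * Real.sin (1 / Real.sqrt 2) - (1 - 1 / 12 + 1 / 480 - 1 / 40320 + 1 / 5806080)| ≤
      15 / 10 ^ 9 := by
  set β : ℝ := 1 / Real.sqrt 2 with hβ
  have hs2 : Real.sqrt 2 ^ 2 = 2 := Real.sq_sqrt (by norm_num)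
  have hs0 : 0 < Real.sqrt 2 := by positivity
  have hβ0 : 0 < β := by positivity
  have hβ2 : β ^ 2 = 1 / 2 := by rw [hβ, div_pow, hs2]; norm_num
  have hβs : Real.sqrt 2 * β = 1 := by rw [hβ]; field_simp
  have hs3 : Real.sqrt 2 ≤ 1.5 := by
    rw [Real.sqrt_le_left (by norm_num)]; norm_num
  have hn : ‖(β : ℂ) * I‖ = β := by
    rw [norm_mul, Complex.norm_I, mul_one, Complex.norm_real, Real.norm_of_nonneg hβ0.le]
  have hβ1 : β ≤ 1 := by nlinarith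
  have h := Complex.exp_bound (x := (β : ℂ) * I) (by rw [hn]; exact hβ1) (n := 10) (by norm_num)
  rw [hn] at h
  have hb : β ^ 10 * ((Nat.succ 10 : ℝ) * ((Nat.factorial 10 : ℝ) * (10 : ℕ))⁻¹) ≤ 1 / 10 ^ 8 := by
    have : β ^ 10 = 1 / 32 := by
      calc β ^ 10 = (β ^ 2) ^ 5 := by ring
        _ = 1 / 32 := by rw [hβ2]; norm_num
    rw [this]
    norm_num [Nat.factorial]
  have h2 := h.trans hb
  have hsum : ∑ m ∈ Finset.range 10, ((β : ℂ) * I) ^ m / (m.factorial : ℂ) =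
      (((1 - 1 / 4 + 1 / 96 - 1 / 5760 + 1 / 645120 : ℝ)) : ℂ) +
        ((β * (1 - 1 / 12 + 1 / 480 - 1 / 40320 + 1 / 5806080) : ℝ) : ℂ) * I := by
    have e2 : (β : ℂ) ^ 2 = 1 / 2 := by
      have := congrArg (fun r : ℝ => (r : ℂ)) hβ2
      push_cast at this
      exact this
    have e3 : (β : ℂ) ^ 3 = (β : ℂ) / 2 := by rw [pow_succ, e2]; ring
    have e4 : (β : ℂ) ^ 4 = 1 / 4 := by
      rw [show (β : ℂ) ^ 4 = ((β : ℂ) ^ 2) ^ 2 by ring, e2]; norm_num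
    have e5 : (β : ℂ) ^ 5 = (β : ℂ) / 4 := by rw [pow_succ, e4]; ring
    have e6 : (β : ℂ) ^ 6 = 1 / 8 := by
      rw [show (β : ℂ) ^ 6 = ((β : ℂ) ^ 2) ^ 3 by ring, e2]; norm_num
    have e7 : (β : ℂ) ^ 7 = (β : ℂ) / 8 := by rw [pow_succ, e6]; ring
    have e8 : (β : ℂ) ^ 8 = 1 / 16 := by
      rw [show (β : ℂ) ^ 8 = ((β : ℂ) ^ 2) ^ 4 by ring, e2]; norm_num
    have e9 : (β : ℂ) ^ 9 = (β : ℂ) / 16 := by rw [pow_succ, e8]; ring
    have i3 : I ^ 3 = -I := Complex.I_pow_three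
    have i4 : I ^ 4 = 1 := Complex.I_pow_four
    have i5 : I ^ 5 = I := by rw [pow_succ, i4, one_mul]
    have i6 : I ^ 6 = -1 := by rw [show (6 : ℕ) = 4 + 2 from rfl, pow_add, i4, I_sq, one_mul]
    have i7 : I ^ 7 = -I := by rw [show (7 : ℕ) = 4 + 3 from rfl, pow_add, i4, i3, one_mul]
    have i8 : I ^ 8 = 1 := by rw [show (8 : ℕ) = 4 + 4 from rfl, pow_add, i4, one_mul]
    have i9 : I ^ 9 = I := by rw [pow_succ, i8, one_mul]
    simp only [Finset.sum_range_succ, Finset.sum_range_zero, mul_pow, pow_zero, pow_one,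
      e2, e3, e4, e5, e6, e7, e8, e9, i3, i4, i5, i6, i7, i8, i9, I_sq, Nat.factorial]
    push_cast
    ring
  rw [hsum, Complex.exp_mul_I, ← Complex.ofReal_cos, ← Complex.ofReal_sin] at h2
  have h3 : ((Real.cos β : ℂ) + (Real.sin β : ℂ) * I) -
      (((1 - 1 / 4 + 1 / 96 - 1 / 5760 + 1 / 645120 : ℝ) : ℂ) +
        ((β * (1 - 1 / 12 + 1 / 480 - 1 / 40320 + 1 / 5806080) : ℝ) : ℂ) * I) =
      ((Real.cos β - (1 - 1 / 4 + 1 / 96 - 1 / 5760 + 1 / 645120) : ℝ) : ℂ) +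
      ((Real.sin β - β * (1 - 1 / 12 + 1 / 480 - 1 / 40320 + 1 / 5806080) : ℝ) : ℂ) * I := by
    push_cast; ring
  rw [h3] at h2
  constructor
  · have h4 := (Complex.abs_re_le_norm _).trans h2
    simp only [Complex.add_re, Complex.ofReal_re, Complex.mul_re, Complex.ofReal_im, Complex.I_re,
      Complex.I_im, mul_zero, zero_mul, sub_zero, add_zero] at h4
    exact h4
  · have h4 := (Complex.abs_im_le_norm _).trans h2
    simp only [Complex.add_im, Complex.ofReal_re, Complex.mul_im, Complex.ofReal_im, Complex.I_re,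
      Complex.I_im, mul_zero, mul_one, zero_mul, zero_add, add_zero] at h4
    have h5 : Real.sqrt 2 * Real.sin β - (1 - 1 / 12 + 1 / 480 - 1 / 40320 + 1 / 5806080) =
        Real.sqrt 2 * (Real.sin β - β * (1 - 1 / 12 + 1 / 480 - 1 / 40320 + 1 / 5806080)) := by
      have : Real.sqrt 2 * (β * (1 - 1 / 12 + 1 / 480 - 1 / 40320 + 1 / 5806080)) =
        (Real.sqrt 2 * β) * (1 - 1 / 12 + 1 / 480 - 1 / 40320 + 1 / 5806080) := by ring
      rw [mul_sub, this, hβs, one_mul]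
    rw [h5, abs_mul, abs_of_pos hs0]
    calc Real.sqrt 2 * |Real.sin β - β * (1 - 1 / 12 + 1 / 480 - 1 / 40320 + 1 / 5806080)| ≤
        1.5 * (1 / 10 ^ 8) := mul_le_mul hs3 h4 (abs_nonneg _) (by norm_num)
      _ ≤ 15 / 10 ^ 9 := by norm_num

lemma cMTinv_sharp : H370.cMTinv ≤ 1.3275 := by
  obtain ⟨h1, h2⟩ := exp_num10
  rw [abs_le] at h1 h2
  have hd : 0 < Real.sqrt 2 * Real.sin (1 / Real.sqrt 2) := by
    have h3 := h2.1
    have h4 : (0:ℝ) < (1 - 1 / 12 + 1 / 480 - 1 / 40320 + 1 / 5806080) - 15 / 10 ^ 9 := by norm_num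
    linarith
  unfold H370.cMTinv
  rw [Real.cot_eq_cos_div_sin, div_div, mul_comm (Real.sin _) (Real.sqrt 2)]
  have : Real.cos (1 / Real.sqrt 2) / (Real.sqrt 2 * Real.sin (1 / Real.sqrt 2)) ≤ 0.8275 := by
    rw [div_le_iff₀ hd]
    nlinarith [h1.1, h1.2, h2.1, h2.2]
  linarith

end Pool.Agent.W354.ZP
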