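import Pool.Agent.W354.ZP.Count
import Pool.Agent.W354.ZP.Num

set_option autoImplicit false

/-! The derivative of zeta at the zeros, in dyadic blocks and up to height `X`. -/

namespace Pool.Agent.W354.ZP

open MeasureTheory Filter Topology Set Metric

lemma loglog_ev (K : ℝ) : ∀ᶠ T : ℝ in atTop, K ≤ Real.log (Real.log T) :=
  (Real.tendsto_log_atTop.comp Real.tendsto_log_atTop).eventually_ge_atTop K

/-- the choice of `v` -/
lemma adm_choice {X : ℝ} (h : 10 ≤ Real.log (Real.log X)) (hX : 1 < X) :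
    ∃ v : ℕ, Adm X v ∧ 0 < v ∧ (v:ℝ) ≤ Real.sqrt (Real.log (Real.log X)) + 3 := by
  set y : ℝ := Real.log (Real.log X) with hy
  have hs0 := Real.sqrt_nonneg y
  have hs2 : Real.sqrt y ^ 2 = y := Real.sq_sqrt (by linarith)
  have hL0 : 0 < Real.log X := Real.log_pos hX
  refine ⟨⌈Real.sqrt y⌉₊ + 2, ⟨by omega, ?_, ?_⟩, by omega, ?_⟩
  · have h1 : Real.sqrt y ≤ ((⌈Real.sqrt y⌉₊ + 2 : ℕ) : ℝ) := by
      push_cast
      linarith [Nat.le_ceil (Real.sqrt y)]
    calc y = Real.sqrt y ^ 2 := hs2.symm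
      _ ≤ _ := pow_le_pow_left₀ hs0 h1 2
  · have h1 : ((⌈Real.sqrt y⌉₊ + 2 : ℕ) : ℝ) ≤ Real.sqrt y + 3 := by
      push_cast
      linarith [Nat.ceil_lt_add_one hs0]
    have h2 : (((⌈Real.sqrt y⌉₊ + 2 : ℕ) : ℝ)) ^ 2 ≤ (Real.sqrt y + 3) ^ 2 :=
      pow_le_pow_left₀ (Nat.cast_nonneg _) h1 2
    have h3 : (Real.sqrt y + 3) ^ 2 ≤ 2 * y + 18 := by nlinarith [sq_nonneg (Real.sqrt y - 3)]
    have h4 : 2 * y + 18 ≤ Real.exp y := by
      have := Real.quadratic_le_exp_of_nonneg (show 0 ≤ y by linarith)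
      nlinarith
    have h5 : Real.exp y = Real.log X := by rw [hy, Real.exp_log hL0]
    linarith
  · push_cast
    linarith [Nat.ceil_lt_add_one hs0]

theorem block {r κ : ℝ} (hr0 : 0 < r) (hr1 : r ≤ 1 / 3) (hκ : 0 < κ) : ∃ C : ℝ, ∀ᶠ T : ℝ in atTop,
    (H344.isoN riemannZeta T (2 * Real.pi * r / Real.log T) (4 * Real.pi / 5 / Real.log T) : ℝ) -
      κ * (H370.NN riemannZeta T (2 * T) : ℝ) ≤ H344.PQ riemannZeta (Qd C) T (2 * T) := by
  have hpi := Real.pi_pos
  have hpi3 := Real.pi_gt_three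
  have hpi4 := Real.pi_lt_d2
  obtain ⟨C1, T1, hC1, hT1, hnn⟩ := H370.nn_asymp H370.good_zeta
  set K : ℝ := (Real.exp 60 * 65 / (Real.pi * r) + 2) / κ with hK
  have hK0 : 0 < K := by positivity
  refine ⟨5 * K + |Real.log (Real.pi * r)| + 1, ?_⟩
  have h5T : Tendsto (fun T : ℝ => 5 * T) atTop atTop := tendsto_id.const_mul_atTop (by norm_num)
  have hlogT : ∀ᶠ T : ℝ in atTop, Real.log T ≤ 5 * T * (Real.pi * r) := by
    have h1 := Real.isLittleO_log_id_atTop.tendsto_div_nhds_zero
    have h2 := h1.eventually (gt_mem_nhds (show (0:ℝ) < 5 * (Real.pi * r) by positivity))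
    filter_upwards [h2, eventually_gt_atTop 0] with T hT hT0
    simp only [id] at hT
    rw [div_lt_iff₀ hT0] at hT
    linarith
  filter_upwards [iso_sum, h5T.eventually (loglog_ev 10), loglog_ev 10, sqrtlog_ev (4 * Real.pi * C1 + 10),
    hlogT, eventually_ge_atTop (max T1 100)] with T hsum hll5 hll hLC hlT hTm
  have hT100 : 100 ≤ T := (le_max_right _ _).trans hTm
  have hT1' : T1 ≤ T := (le_max_left _ _).trans hTm
  have hT0 : 0 < T := by linarith
  obtain ⟨v, hv, hv0, hvle⟩ := adm_choice hll5 (by linarith)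
  have hv1 : (1:ℝ) ≤ v := by exact_mod_cast hv0
  set L : ℝ := Real.log T with hL
  have hL0 : 0 < L := Real.log_pos (by linarith)
  set δ : ℝ := Real.pi * r / L with hδ
  have hδ0 : 0 < δ := by positivity
  have hδ1 : 1 / (5 * T) ≤ δ := by
    rw [hδ, div_le_div_iff₀ (by positivity) hL0]
    linarith
  classical
  have hfin : (H344.isoSet riemannZeta T (2 * Real.pi * r / L) (4 * Real.pi / 5 / L)).Finite :=
    (H370.zset_finite H370.good_zeta T (2 * T) (by linarith)).subset fun s hs => hs.1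
  set I : Finset ℂ := hfin.toFinset with hI
  have hIc : (H344.isoN riemannZeta T (2 * Real.pi * r / L) (4 * Real.pi / 5 / L) : ℝ) = I.card := by
    unfold H344.isoN
    rw [Set.ncard_eq_toFinset_card _ hfin]
  have hs := hsum v hv r hr0 hr1 hδ1 I (by rw [hI, Set.Finite.coe_toFinset])
  set X : ℂ → ℝ := fun s => |Real.log ‖deriv riemannZeta s‖ + Real.log δ| with hX
  set G := I.filter fun s => X s ≤ K * v with hG
  set B := I.filter fun s => ¬ X s ≤ K * v with hB
  have hcard : (I.card : ℝ) = G.card + B.card := by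
    rw [hG, hB, ← Nat.cast_add, Finset.card_filter_add_card_filter_not]
  -- the bad zeros
  have hNN : T * L / (4 * Real.pi) ≤ (H370.NN riemannZeta T (2 * T) : ℝ) := by
    have h1 := (abs_le.mp (hnn T hT1' T (2 * T) le_rfl (by linarith) (by linarith) le_rfl)).1
    have h2 : C1 * T ≤ T * L / (4 * Real.pi) := by
      rw [le_div_iff₀ (by positivity)]
      nlinarith
    have h3 : T * L / (2 * Real.pi) = T * L / (4 * Real.pi) + T * L / (4 * Real.pi) := by ring
    linarith
  have hINN : (I.card : ℝ) ≤ (H370.NN riemannZeta T (2 * T) : ℝ) := by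
    have h1 : H344.isoN riemannZeta T (2 * Real.pi * r / L) (4 * Real.pi / 5 / L) ≤
        H370.Ns riemannZeta T (2 * T) := by
      unfold H344.isoN H370.Ns
      refine Set.ncard_le_ncard ?_ ((H370.zset_finite H370.good_zeta T (2 * T) (by linarith)).subset
        fun s hs => hs.1)
      rintro s ⟨a1, a2, a3, a4⟩
      exact ⟨a1, a2, a3⟩
    have h2 := h1.trans (H344.Ns_le_NN H370.good_zeta (b := 2 * T) (by linarith))
    rw [← hIc]
    exact_mod_cast h2
  have hBsum : (B.card : ℝ) * (δ ^ 2 * (K * v)) ≤ ∑ s ∈ I, δ ^ 2 * X s := by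
    calc (B.card : ℝ) * (δ ^ 2 * (K * v)) = ∑ s ∈ B, δ ^ 2 * (K * v) := by
          rw [Finset.sum_const, nsmul_eq_mul]
      _ ≤ ∑ s ∈ B, δ ^ 2 * X s := by
          refine Finset.sum_le_sum fun s hs => ?_
          rw [hB, Finset.mem_filter] at hs
          push Not at hs
          exact mul_le_mul_of_nonneg_left hs.2.le (by positivity)
      _ ≤ _ := Finset.sum_le_sum_of_subset_of_nonneg (Finset.filter_subset _ _) fun s _ _ => by
          have : 0 ≤ X s := abs_nonneg _
          positivity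
  have hBle : (B.card : ℝ) ≤ κ * (H370.NN riemannZeta T (2 * T) : ℝ) := by
    have h1 := hBsum.trans hs
    have hTL : T * L ≤ 13 * (H370.NN riemannZeta T (2 * T) : ℝ) := by
      rw [div_le_iff₀ (by positivity)] at hNN
      have h0 : (0:ℝ) ≤ (H370.NN riemannZeta T (2 * T) : ℝ) := Nat.cast_nonneg _
      nlinarith
    -- divide by `δ² v`
    have h2 : (B.card : ℝ) * K ≤ Real.exp 60 * (5 * T) / δ + 2 * I.card := by
      have hdv : 0 < δ ^ 2 * v := by positivity
      have h3 : ((B.card : ℝ) * K) * (δ ^ 2 * v) ≤ (Real.exp 60 * (5 * T) / δ + 2 * I.card) * (δ ^ 2 * v) := by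
        have e1 : (Real.exp 60 * (5 * T) / δ + 2 * I.card) * (δ ^ 2 * v) =
            Real.exp 60 * (v * (5 * T) * δ) + (I.card * (2 * δ ^ 2)) * v := by
          field_simp
        rw [e1]
        have h4 : (I.card : ℝ) * (2 * δ ^ 2) ≤ (I.card * (2 * δ ^ 2)) * v := by
          have : 0 ≤ (I.card : ℝ) * (2 * δ ^ 2) := by positivity
          nlinarith
        calc ((B.card : ℝ) * K) * (δ ^ 2 * v) = (B.card : ℝ) * (δ ^ 2 * (K * v)) := by ring
          _ ≤ _ := h1
          _ ≤ _ := by linarith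
      exact le_of_mul_le_mul_right h3 hdv
    have h5 : Real.exp 60 * (5 * T) / δ = Real.exp 60 * 5 / (Real.pi * r) * (T * L) := by
      rw [hδ]; field_simp
    have h6 : Real.exp 60 * 5 / (Real.pi * r) * (T * L) ≤
        Real.exp 60 * 5 / (Real.pi * r) * (13 * (H370.NN riemannZeta T (2 * T) : ℝ)) :=
      mul_le_mul_of_nonneg_left hTL (by positivity)
    have h7 : (B.card : ℝ) * K ≤ (Real.exp 60 * 65 / (Real.pi * r) + 2) *
        (H370.NN riemannZeta T (2 * T) : ℝ) := by
      have e : Real.exp 60 * 5 / (Real.pi * r) * (13 * (H370.NN riemannZeta T (2 * T) : ℝ)) =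
        Real.exp 60 * 65 / (Real.pi * r) * (H370.NN riemannZeta T (2 * T) : ℝ) := by ring
      rw [h5] at h2
      rw [e] at h6
      linarith
    have h8 : Real.exp 60 * 65 / (Real.pi * r) + 2 = κ * K := by
      rw [hK]; field_simp
    rw [h8] at h7
    have h9 : (B.card : ℝ) * K ≤ (κ * (H370.NN riemannZeta T (2 * T) : ℝ)) * K := by linarith
    exact le_of_mul_le_mul_right h9 hK0
  -- the good zeros
  have hGle : (G.card : ℝ) ≤ H344.PQ riemannZeta (Qd (5 * K + |Real.log (Real.pi * r)| + 1)) T (2 * T) := by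
    have h1 : G.card ≤ H344.PQ riemannZeta (Qd (5 * K + |Real.log (Real.pi * r)| + 1)) T (2 * T) := by
      unfold H344.PQ
      rw [← Set.ncard_coe_finset]
      refine Set.ncard_le_ncard ?_ ((H370.zset_finite H370.good_zeta T (2 * T) (by linarith)).subset
        fun s hs => hs.1)
      intro s hs
      rw [Finset.mem_coe, hG, Finset.mem_filter, hI, Set.Finite.mem_toFinset] at hs
      obtain ⟨⟨a1, a2, a3, a4⟩, hXs⟩ := hs
      refine ⟨a1, a2, a3, by linarith [a1.2.2.1], ?_⟩
      have hγ1 : T < s.im := a1.2.2.1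
      have hγ2 : s.im ≤ 2 * T := a1.2.2.2.1
      have hγ0 : 0 < s.im := by linarith
      have hlg : L ≤ Real.log s.im := Real.log_le_log hT0 hγ1.le
      have hlg2 : Real.log s.im ≤ 2 * L := by
        have b1 := Real.log_le_log hγ0 hγ2
        rw [Real.log_mul (by norm_num) hT0.ne', ← hL] at b1
        have b2 := Real.log_two_lt_d9
        have b3 : 10 ≤ L := by nlinarith
        linarith
      have hll1 : Real.log L ≤ Real.log (Real.log s.im) := Real.log_le_log hL0 hlg
      have hll2 : Real.log (Real.log s.im) ≤ Real.log L + 1 := by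
        have b1 := Real.log_le_log (by linarith) hlg2
        rw [Real.log_mul (by norm_num) hL0.ne'] at b1
        have b2 := Real.log_two_lt_d9
        linarith
      set a : ℝ := Real.log (Real.log s.im) with ha
      have ha10 : 10 ≤ a := by linarith
      have hsa1 : 1 ≤ Real.sqrt a := by
        rw [Real.one_le_sqrt]; linarith
      have h5 : Real.log (Real.log (5 * T)) ≤ a + 1 := by
        have b1 : Real.log (5 * T) ≤ 2 * L := by
          rw [Real.log_mul (by norm_num) hT0.ne', ← hL]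
          have b2 := Real.log_le_sub_one_of_pos (show (0:ℝ) < 5 by norm_num)
          have b3 : 10 ≤ L := by nlinarith
          linarith
        have b2 : 0 < Real.log (5 * T) := Real.log_pos (by linarith)
        have b3 := Real.log_le_log b2 b1
        rw [Real.log_mul (by norm_num) hL0.ne'] at b3
        have b4 := Real.log_two_lt_d9
        linarith
      have hv5 : (v:ℝ) ≤ 5 * Real.sqrt a := by
        have b1 : Real.sqrt (Real.log (Real.log (5 * T))) ≤ Real.sqrt a + 1 := by
          rw [Real.sqrt_le_left (by positivity)]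
          have := Real.sq_sqrt (show 0 ≤ a by linarith)
          nlinarith
        linarith
      have hld : Real.log δ = Real.log (Real.pi * r) - Real.log L := by
        rw [hδ, Real.log_div (by positivity) hL0.ne']
      have hfin1 : |Real.log ‖deriv riemannZeta s‖ - a| ≤ X s + |Real.log (Real.pi * r)| + 1 := by
        have e : Real.log ‖deriv riemannZeta s‖ - a =
          (Real.log ‖deriv riemannZeta s‖ + Real.log δ) + (-Real.log (Real.pi * r)) + (Real.log L - a) := by
          rw [hld]; ring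
        rw [e]
        refine (abs_add_three _ _ _).trans ?_
        rw [abs_neg]
        have : |Real.log L - a| ≤ 1 := by rw [abs_le]; constructor <;> linarith
        simp only [hX]
        linarith
      refine hfin1.trans ?_
      have c1 : K * v ≤ K * (5 * Real.sqrt a) := by gcongr
      have c2 := abs_nonneg (Real.log (Real.pi * r))
      nlinarith
    exact_mod_cast h1
  rw [hIc, hcard]
  linarith

theorem final : ∃ C : ℝ, ∃ X0 : ℝ, ∀ X : ℝ, X0 ≤ X →
    (2 - H370.cMTinv) * (H370.NN riemannZeta 0 X : ℝ) ≤ H344.PQ riemannZeta (Qd C) 0 X := by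
  obtain ⟨κ, hκ0, hκ1, H⟩ := H370.yhyp_triples
  set κ' : ℝ := min (1 / 100) (κ / 2) with hκ'
  have hk0 : 0 < κ' := by positivity
  have hk1 : κ' ≤ 1 / 100 := min_le_left _ _
  have hk2 : 2 * κ' ≤ κ := by
    have := min_le_right (1 / 100) (κ / 2)
    linarith
  have hpi4 := Real.pi_lt_d2
  have hpi := Real.pi_pos
  -- the radius
  set r : ℝ := κ' / 20 with hr
  have hr0 : 0 < r := by positivity
  have hr1 : r ≤ 1 / 3 := by rw [hr]; linarith
  obtain ⟨T0, hT0⟩ := H344.iso_main H370.good_zeta hk0 hk1 hk2 H hr0.le hr1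
  have hc1 := H344.cMTinv_le
  have hc2 := H344.cMTinv_ge
  have hKK1 : 1 - κ' / 8 ≤ H344.KK r := by
    refine le_trans ?_ (H344.KK_lower r)
    have h1 : (2 * Real.pi * r) ^ 2 ≤ (κ' / 2) ^ 2 := by
      refine pow_le_pow_left₀ (by positivity) ?_ 2
      rw [hr]; nlinarith
    have h2 : (2 * Real.pi * r) ^ 2 / 2 * (H370.cMTinv - 5 / 4) ≤ (κ' / 2) ^ 2 / 2 * 1 := by
      refine mul_le_mul (by linarith) (by linarith) (by linarith) (by positivity)
    nlinarith
  have hKK0 : 0 < H344.KK r := by linarith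
  have hKsq : 1 - κ' / 4 ≤ H344.KK r ^ 2 := by
    have : (1 - κ' / 8) ^ 2 ≤ H344.KK r ^ 2 := pow_le_pow_left₀ (by linarith) hKK1 2
    nlinarith
  have hprop : 2 - H370.cMTinv + κ' / 2 ≤ 1 - (H370.cMTinv - 1 - κ') / H344.KK r ^ 2 := by
    have h1 : (H370.cMTinv - 1 - κ') / H344.KK r ^ 2 ≤ H370.cMTinv - 1 - κ' / 2 := by
      rw [div_le_iff₀ (by positivity)]
      have h2 : (H370.cMTinv - 1 - κ' / 2) * (1 - κ' / 4) ≤ (H370.cMTinv - 1 - κ' / 2) * H344.KK r ^ 2 :=
        mul_le_mul_of_nonneg_left hKsq (by linarith)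
      refine le_trans ?_ h2
      nlinarith
    linarith
  obtain ⟨C, hC⟩ := block hr0 hr1 (show 0 < κ' / 4 by positivity)
  obtain ⟨T1, hT1⟩ := eventually_atTop.mp hC
  refine ⟨C, ?_⟩
  refine H370.dyadic_zero H370.good_zeta H370.zeta_zeros_finite (H344.PQ riemannZeta (Qd C))
    (fun a b c h1 h2 h3 => H344.PQ_add H370.good_zeta _ h1 h2 h3)
    (fun a X ha => H344.PQ_mono H370.zeta_zeros_finite _ a X ha) (2 - H370.cMTinv + κ' / 4)
    (2 - H370.cMTinv) (max T0 T1) (by linarith) (by linarith) ?_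
  intro T hT
  have h1 := hT0 T ((le_max_left _ _).trans hT)
  have h2 := hT1 T ((le_max_right _ _).trans hT)
  have h3 := mul_le_mul_of_nonneg_right hprop (Nat.cast_nonneg (α := ℝ) (H370.NN riemannZeta T (2 * T)))
  linarith

end Pool.Agent.W354.ZP
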