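import Pool.Agent.W354.ZP.LogZ

set_option autoImplicit false

/-! The negative part of `log |ζ(σ+it)|`, integrated over `[0, X/2]`. -/

namespace Pool.Agent.W354.ZP

open MeasureTheory Filter Topology Set Pool.Agent.H306R2 Pool.Agent.W184

/-- the negative part of the logarithm of `|ζ(σ+iu)|` -/
noncomputable def Ng (σ u : ℝ) : ENNReal := ENNReal.ofReal (max (-Real.log (zn σ u)) 0)

lemma Ng_meas {σ : ℝ} (h : σ < 1) : Measurable (Ng σ) := by
  unfold Ng
  have h1 := (zn_cont h).measurable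
  fun_prop

lemma KS_low {Δ : ℝ} (h1 : 5 / 4 ≤ Δ) (h2 : Δ ≤ 13 / 8) {w : ℝ} (hw : |w| ≤ 1 / 2) : 1 / 20 ≤ KS Δ w := by
  have hpi := Real.pi_gt_three
  have hpi4 := Real.pi_lt_four
  have h0 : 0 < Δ := by linarith
  unfold KS
  have hc := Real.cosh_pos (Real.pi * w / (2 * Δ))
  refine one_div_le_one_div_of_le (by positivity) ?_
  have h3 : Real.cosh (Real.pi * w / (2 * Δ)) ≤ Real.exp 1 := by
    rw [← Real.cosh_abs, Real.cosh_eq]
    have h4 : |Real.pi * w / (2 * Δ)| ≤ 1 := by
      rw [abs_div, abs_mul, abs_of_pos (show (0:ℝ) < 2 * Δ by linarith), abs_of_pos Real.pi_pos,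
        div_le_one (by linarith)]
      nlinarith [abs_nonneg w]
    have h5 := Real.exp_le_exp.mpr h4
    have h6 : Real.exp (-|Real.pi * w / (2 * Δ)|) ≤ Real.exp 1 :=
      Real.exp_le_exp.mpr (by linarith [abs_nonneg (Real.pi * w / (2 * Δ))])
    linarith
  have he := Real.exp_one_lt_d9
  nlinarith

/-- lower bound for the averaged kernel -/
lemma W_low {Δ T u : ℝ} (h1 : 5 / 4 ≤ Δ) (h2 : Δ ≤ 13 / 8) (hT : 1 ≤ T) (hu : u ∈ Ioo 0 T) :
    ENNReal.ofReal (1 / 40) ≤ ∫⁻ t in Ioo 0 T, ENNReal.ofReal (KS Δ (u - t)) := by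
  obtain ⟨a, b, hab, hsub, hcl⟩ : ∃ a b : ℝ, b - a = 1 / 2 ∧ Ioo a b ⊆ Ioo 0 T ∧
      ∀ t ∈ Ioo a b, |u - t| ≤ 1 / 2 := by
    rcases le_total (1 / 2) u with h | h
    · refine ⟨u - 1 / 2, u, by ring, fun t ht => ⟨by linarith [ht.1], by linarith [ht.2, hu.2]⟩, ?_⟩
      intro t ht
      rw [abs_le]; constructor <;> linarith [ht.1, ht.2]
    · refine ⟨u, u + 1 / 2, by ring, fun t ht => ⟨by linarith [ht.1, hu.1], by linarith [ht.2]⟩, ?_⟩
      intro t ht
      rw [abs_le]; constructor <;> linarith [ht.1, ht.2]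
  calc ENNReal.ofReal (1 / 40) = ENNReal.ofReal (1 / 20) * volume (Ioo a b) := by
        rw [Real.volume_Ioo, hab, ← ENNReal.ofReal_mul (by norm_num)]; norm_num
    _ = ∫⁻ _ in Ioo a b, ENNReal.ofReal (1 / 20) := by rw [setLIntegral_const]
    _ ≤ ∫⁻ t in Ioo a b, ENNReal.ofReal (KS Δ (u - t)) := by
        refine setLIntegral_mono' measurableSet_Ioo fun t ht => ?_
        exact ENNReal.ofReal_le_ofReal (KS_low h1 h2 (hcl t ht))
    _ ≤ _ := lintegral_mono_set hsub

lemma KS_meas {Δ : ℝ} (h : 0 < Δ) : Measurable (KS Δ) := (KS_cont h).measurable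

/-- the lower half of the argument -/
lemma low_half {σ T : ℝ} (h1 : 3 / 8 ≤ σ) (h2 : σ ≤ 3 / 4) (hT : 1 ≤ T) :
    ENNReal.ofReal (1 / 40) * ∫⁻ u in Ioo 0 T, Ng σ u ≤
      ∫⁻ t in Ioo 0 T, ∫⁻ w, ENNReal.ofReal (KS (2 - σ) w * max (-Real.log (zn σ (t + w))) 0) := by
  set Δ : ℝ := 2 - σ with hΔ
  have hΔ0 : 0 < Δ := by linarith
  have hKm := KS_meas hΔ0
  have hNm := Ng_meas (σ := σ) (by linarith)
  have e1 : ∀ t : ℝ, ∫⁻ w, ENNReal.ofReal (KS Δ w * max (-Real.log (zn σ (t + w))) 0) =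
      ∫⁻ u, ENNReal.ofReal (KS Δ (u - t)) * Ng σ u := by
    intro t
    rw [← lintegral_add_left_eq_self (fun u => ENNReal.ofReal (KS Δ (u - t)) * Ng σ u) t]
    refine lintegral_congr fun w => ?_
    rw [ENNReal.ofReal_mul (KS_nonneg hΔ0 w), add_sub_cancel_left]
    rfl
  simp_rw [e1]
  rw [lintegral_lintegral_swap]
  · calc ENNReal.ofReal (1 / 40) * ∫⁻ u in Ioo 0 T, Ng σ u =
        ∫⁻ u in Ioo 0 T, ENNReal.ofReal (1 / 40) * Ng σ u := by
          rw [lintegral_const_mul _ hNm]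
      _ ≤ ∫⁻ u in Ioo 0 T, ∫⁻ t in Ioo 0 T, ENNReal.ofReal (KS Δ (u - t)) * Ng σ u := by
          refine setLIntegral_mono' measurableSet_Ioo fun u hu => ?_
          rw [lintegral_mul_const _ (by
            exact (hKm.comp (measurable_const.sub measurable_id)).ennreal_ofReal)]
          exact mul_le_mul' (W_low (by rw [hΔ]; linarith) (by rw [hΔ]; linarith) hT hu) le_rfl
      _ ≤ _ := setLIntegral_le_lintegral _ _
  · have hm1 : Measurable fun q : ℝ × ℝ => ENNReal.ofReal (KS Δ (q.2 - q.1)) :=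
      (hKm.comp (measurable_snd.sub measurable_fst)).ennreal_ofReal
    have hm2 : Measurable fun q : ℝ × ℝ => Ng σ q.2 := hNm.comp measurable_snd
    exact (hm1.mul hm2).aemeasurable

/-- the upper half of the argument -/
lemma up_half {σ T p : ℝ} (h1 : 3 / 8 ≤ σ) (h2 : σ ≤ 3 / 4) (hT : 1 ≤ T) (hp0 : 0 < p) (hp1 : p ≤ 1) :
    ∫⁻ t in Ioo 0 T, ∫⁻ w, ENNReal.ofReal (KS (2 - σ) w * zn σ (t + w) ^ p) ≤
      ENNReal.ofReal ((∫ t in (0:ℝ)..(2 * T), zn σ t ^ p) + 2000 * T) := by
  set Δ : ℝ := 2 - σ with hΔ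
  have hΔ0 : 0 < Δ := by linarith
  have hKm := KS_meas hΔ0
  have hzc : Continuous fun u => zn σ u ^ p := zp_cont (by linarith) hp0
  have hz0 : ∀ u, 0 ≤ zn σ u ^ p := fun u => Real.rpow_nonneg (zn_nonneg _ _) _
  set M : ℝ := ∫ t in (0:ℝ)..(2 * T), zn σ t ^ p with hM
  have hM0 : 0 ≤ M := intervalIntegral.integral_nonneg (by linarith) fun x _ => hz0 x
  have hmeas : Measurable (Function.uncurry fun t w : ℝ => ENNReal.ofReal (KS Δ w * zn σ (t + w) ^ p)) := by
    refine Measurable.ennreal_ofReal ?_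
    exact (hKm.comp measurable_snd).mul (hzc.measurable.comp (measurable_fst.add measurable_snd))
  rw [lintegral_lintegral_swap hmeas.aemeasurable]
  have hpi := Real.pi_pos
  have hpi4 := Real.pi_lt_four
  -- the inner integral
  have hin : ∀ w : ℝ, ∫⁻ t in Ioo 0 T, ENNReal.ofReal (KS Δ w * zn σ (t + w) ^ p) ≤
      ENNReal.ofReal (KS Δ w * (2 * M)) + ENNReal.ofReal (96 * T * Real.exp (-|w| / 4)) := by
    intro w
    have hc : Continuous fun t => KS Δ w * zn σ (t + w) ^ p :=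
      continuous_const.mul (hzc.comp (by fun_prop))
    have e1 : ∫⁻ t in Ioo 0 T, ENNReal.ofReal (KS Δ w * zn σ (t + w) ^ p) =
        ENNReal.ofReal (∫ t in (0:ℝ)..T, KS Δ w * zn σ (t + w) ^ p) := by
      rw [intervalIntegral.integral_of_le (by linarith), integral_Ioc_eq_integral_Ioo,
        ofReal_integral_eq_lintegral_ofReal]
      · exact (hc.integrableOn_Icc (a := 0) (b := T)).mono_set Ioo_subset_Icc_self
      · exact Eventually.of_forall fun t => mul_nonneg (KS_nonneg hΔ0 w) (hz0 _)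
    rw [e1]
    rcases le_or_gt |w| T with hw | hw
    · refine le_trans (ENNReal.ofReal_le_ofReal ?_) le_self_add
      rw [intervalIntegral.integral_const_mul]
      refine mul_le_mul_of_nonneg_left ?_ (KS_nonneg hΔ0 w)
      rw [intervalIntegral.integral_comp_add_right (fun x => zn σ x ^ p)]
      have hw' := abs_le.mp hw
      have a1 : ∫ x in (0 + w)..(T + w), zn σ x ^ p ≤ ∫ x in (-(2 * T))..(2 * T), zn σ x ^ p := by
        refine intervalIntegral.integral_mono_interval (by linarith) (by linarith) (by linarith)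
          (Eventually.of_forall fun x => hz0 x) (hzc.intervalIntegrable _ _)
      have a2 : ∫ x in (-(2 * T))..(2 * T), zn σ x ^ p = 2 * M := by
        rw [← intervalIntegral.integral_add_adjacent_intervals (hzc.intervalIntegrable (-(2 * T)) 0)
          (hzc.intervalIntegrable 0 (2 * T))]
        have a3 : ∫ x in (-(2 * T))..0, zn σ x ^ p = M := by
          have := intervalIntegral.integral_comp_neg (a := 0) (b := 2 * T) (fun x => zn σ x ^ p)
          rw [neg_zero] at this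
          rw [← this, hM]
          refine intervalIntegral.integral_congr fun x _ => ?_
          rw [zn_neg]
        rw [a3]; ring
      linarith
    · refine le_trans (ENNReal.ofReal_le_ofReal ?_) le_add_self
      have a1 : ∫ t in (0:ℝ)..T, KS Δ w * zn σ (t + w) ^ p ≤ (T - 0) * (96 * Real.exp (-|w| / 4)) := by
        refine int_le_of_le hc (by linarith) fun t ht => ?_
        have b1 := zp_le (x := t + w) hp0 hp1 h1 h2
        have b2 := abs_add_le t w
        rw [abs_of_nonneg ht.1] at b2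
        have b3 : zn σ (t + w) ^ p ≤ 24 * (1 + |w|) := by
          have := ht.2
          nlinarith
        have b4 := KS_lin (Δ := Δ) (by rw [hΔ]; linarith) (by rw [hΔ]; linarith) (a := 1) le_rfl w
        calc KS Δ w * zn σ (t + w) ^ p ≤ KS Δ w * (24 * (1 + |w|)) :=
              mul_le_mul_of_nonneg_left b3 (KS_nonneg hΔ0 w)
          _ = 24 * (KS Δ w * (1 + |w|)) := by ring
          _ ≤ 24 * (4 * 1 * Real.exp (-|w| / 4)) := by gcongr
          _ = _ := by ring
      refine a1.trans (le_of_eq ?_)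
      ring
  refine (lintegral_mono hin).trans ?_
  have hKi := KS_integrable hΔ0
  have hEi := exp_int.1
  rw [lintegral_add_left ((hKm.mul_const _).ennreal_ofReal),
    ← ofReal_integral_eq_lintegral_ofReal (hKi.mul_const _)
      (Eventually.of_forall fun w => mul_nonneg (KS_nonneg hΔ0 w) (by positivity)),
    ← ofReal_integral_eq_lintegral_ofReal (hEi.const_mul _)
      (Eventually.of_forall fun w => by positivity), ← ENNReal.ofReal_add]
  · refine ENNReal.ofReal_le_ofReal ?_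
    rw [integral_mul_const, KS_integral hΔ0, integral_const_mul]
    have := exp_int.2
    have h3 : 96 * T * ∫ w : ℝ, Real.exp (-|w| / 4) ≤ 96 * T * (4 * 4) := by
      gcongr
      linarith
    linarith
  · rw [integral_mul_const, KS_integral hΔ0]; positivity
  · exact integral_nonneg fun w => by positivity

theorem neg_int {σ T p : ℝ} (h1 : 3 / 8 ≤ σ) (h2 : σ ≤ 3 / 4) (hT : 1 ≤ T) (hp0 : 0 < p) (hp1 : p ≤ 1) :
    ∫⁻ u in Ioo 0 T, Ng σ u ≤
      ENNReal.ofReal (Real.exp 20 / p * ((∫ t in (0:ℝ)..(2 * T), zn σ t ^ p) + T)) := by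
  set Δ : ℝ := 2 - σ with hΔ
  have hΔ0 : 0 < Δ := by linarith
  have hKm := KS_meas hΔ0
  have hzc : Continuous fun u => zn σ u ^ p := zp_cont (by linarith) hp0
  have hz0 : ∀ u, 0 ≤ zn σ u ^ p := fun u => Real.rpow_nonneg (zn_nonneg _ _) _
  have hki2 : ∀ t : ℝ, Integrable fun w => KS Δ w * zn σ (t + w) ^ p := by
    intro t
    refine ((exp_int.1).const_mul (12 * (4 * (1 + |t|)))).mono' ?_ (Eventually.of_forall fun w => ?_)
    · exact ((KS_cont hΔ0).mul (hzc.comp (by fun_prop : Continuous fun w => t + w))).aestronglyMeasurable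
    · rw [Real.norm_of_nonneg (mul_nonneg (KS_nonneg hΔ0 w) (hz0 _))]
      have a1 := KS_lin (Δ := Δ) (by rw [hΔ]; linarith) (by rw [hΔ]; linarith) (a := 1 + |t|)
        (by linarith [abs_nonneg t]) w
      have a2 : zn σ (t + w) ^ p ≤ 12 * (1 + |t| + |w|) := by
        refine (zp_le hp0 hp1 h1 h2).trans ?_
        have := abs_add_le t w
        nlinarith
      calc KS Δ w * zn σ (t + w) ^ p ≤ KS Δ w * (12 * (1 + |t| + |w|)) :=
            mul_le_mul_of_nonneg_left a2 (KS_nonneg hΔ0 w)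
        _ = 12 * (KS Δ w * (1 + |t| + |w|)) := by ring
        _ ≤ 12 * (4 * (1 + |t|) * Real.exp (-|w| / 4)) := by gcongr
        _ = _ := by ring
  set M : ℝ := ∫ t in (0:ℝ)..(2 * T), zn σ t ^ p with hM
  have hM0 : 0 ≤ M := intervalIntegral.integral_nonneg (by linarith) fun x _ => hz0 x
  have hlow := low_half h1 h2 hT
  have hup := up_half h1 h2 hT hp0 hp1
  rw [← hΔ] at hlow hup
  rw [← hM] at hup
  have hE6 : 0 < Real.exp 6 := Real.exp_pos 6
  have hmid : ∫⁻ t in Ioo 0 T, ∫⁻ w, ENNReal.ofReal (KS Δ w * max (-Real.log (zn σ (t + w))) 0) ≤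
      ENNReal.ofReal (Real.exp 6 * T + Real.exp 6 / p * (M + 2000 * T)) := by
    calc ∫⁻ t in Ioo 0 T, ∫⁻ w, ENNReal.ofReal (KS Δ w * max (-Real.log (zn σ (t + w))) 0) ≤
        ∫⁻ t in Ioo 0 T, (ENNReal.ofReal (Real.exp 6) + ENNReal.ofReal (Real.exp 6 / p) *
          ∫⁻ w, ENNReal.ofReal (KS Δ w * zn σ (t + w) ^ p)) := by
          refine lintegral_mono fun t => ?_
          refine (neg_log_pt (t := t) h1 h2 hp0 hp1).trans ?_
          rw [← hΔ]
          have hI : 0 ≤ ∫ w, KS Δ w * zn σ (t + w) ^ p :=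
            integral_nonneg fun w => mul_nonneg (KS_nonneg hΔ0 w) (hz0 _)
          rw [ENNReal.ofReal_add hE6.le (by positivity), ENNReal.ofReal_mul (by positivity),
            ofReal_integral_eq_lintegral_ofReal (hki2 t)
              (Eventually.of_forall fun w => mul_nonneg (KS_nonneg hΔ0 w) (hz0 _))]
      _ = ENNReal.ofReal (Real.exp 6) * ENNReal.ofReal T + ENNReal.ofReal (Real.exp 6 / p) *
          ∫⁻ t in Ioo 0 T, ∫⁻ w, ENNReal.ofReal (KS Δ w * zn σ (t + w) ^ p) := by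
          rw [lintegral_add_left measurable_const, setLIntegral_const, Real.volume_Ioo, sub_zero,
            lintegral_const_mul']
          exact ENNReal.ofReal_ne_top
      _ ≤ ENNReal.ofReal (Real.exp 6) * ENNReal.ofReal T + ENNReal.ofReal (Real.exp 6 / p) *
          ENNReal.ofReal (M + 2000 * T) := by gcongr
      _ = _ := by
          rw [← ENNReal.ofReal_mul hE6.le, ← ENNReal.ofReal_mul (by positivity), ← ENNReal.ofReal_add
            (by positivity) (by positivity)]
  have h3 := hlow.trans hmid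
  have h4 : ∫⁻ u in Ioo 0 T, Ng σ u = ENNReal.ofReal 40 * (ENNReal.ofReal (1 / 40) * ∫⁻ u in Ioo 0 T, Ng σ u) := by
    rw [← mul_assoc, ← ENNReal.ofReal_mul (by norm_num)]
    norm_num
  rw [h4]
  refine (mul_le_mul' le_rfl h3).trans ?_
  rw [← ENNReal.ofReal_mul (by norm_num)]
  refine ENNReal.ofReal_le_ofReal ?_
  have e20 : Real.exp 20 = Real.exp 14 * Real.exp 6 := by rw [← Real.exp_add]; norm_num
  have g14 : 10 ^ 6 ≤ Real.exp 14 := by
    have h := Real.exp_one_gt_d9
    have e : Real.exp 14 = Real.exp 1 ^ 14 := by rw [← Real.exp_nat_mul]; norm_num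
    rw [e]
    have h2 : (2.7182818283:ℝ) ^ 14 ≤ Real.exp 1 ^ 14 := pow_le_pow_left₀ (by norm_num) h.le 14
    linarith [show (10 ^ 6:ℝ) ≤ (2.7182818283:ℝ) ^ 14 by norm_num]
  have hT0 : 0 < T := by linarith
  have b1 : Real.exp 6 * T ≤ Real.exp 6 / p * T := by
    have : Real.exp 6 ≤ Real.exp 6 / p := by
      rw [le_div_iff₀ hp0]
      exact mul_le_of_le_one_right hE6.le hp1
    gcongr
  have b2 : 40 * (Real.exp 6 / p * T + Real.exp 6 / p * (M + 2000 * T)) ≤
      Real.exp 20 / p * (M + T) := by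
    rw [e20]
    have e : Real.exp 14 * Real.exp 6 / p * (M + T) = (Real.exp 6 / p) * (Real.exp 14 * (M + T)) := by ring
    have e2 : 40 * (Real.exp 6 / p * T + Real.exp 6 / p * (M + 2000 * T)) =
      (Real.exp 6 / p) * (40 * (T + (M + 2000 * T))) := by ring
    rw [e, e2]
    refine mul_le_mul_of_nonneg_left ?_ (by positivity)
    nlinarith [mul_le_mul_of_nonneg_right g14 (show 0 ≤ M + T by positivity)]
  linarith

end Pool.Agent.W354.ZP
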