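import Mathlib

set_option autoImplicit false

/-! From `p`-th powers to the negative part of the logarithm. -/

namespace Pool.Agent.W354.ZP

open MeasureTheory Filter Topology Set

lemma rpow_div_mono {y p q : ℝ} (hy : 1 ≤ y) (hq : 0 < q) (hqp : q ≤ p) :
    (y ^ q - 1) / q ≤ (y ^ p - 1) / p := by
  have hp : 0 < p := lt_of_lt_of_le hq hqp
  have hy0 : 0 < y := by linarith
  have h1 : 1 ≤ y ^ q := Real.one_le_rpow hy hq.le
  have h2 := one_add_mul_self_le_rpow_one_add (s := y ^ q - 1) (by linarith) (p := p / q)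
    (by rw [le_div_iff₀ hq]; linarith)
  rw [show 1 + (y ^ q - 1) = y ^ q by ring, ← Real.rpow_mul hy0.le, mul_div_cancel₀ _ hq.ne'] at h2
  rw [div_le_div_iff₀ hq hp]
  have h3 : p / q * (y ^ q - 1) * q = p * (y ^ q - 1) := by field_simp
  nlinarith [mul_le_mul_of_nonneg_right h2 hq.le]

lemma pos_part_le {y p q : ℝ} (hy : 0 ≤ y) (hq : 0 < q) (hqp : q ≤ p) :
    max ((1 - y ^ q) / q) 0 ≤ (1 - y ^ q) / q + y ^ p / p := by
  have hp : 0 < p := lt_of_lt_of_le hq hqp
  have hyp : 0 ≤ y ^ p / p := by positivity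
  rcases le_total y 1 with h | h
  · have h1 : y ^ q ≤ 1 := Real.rpow_le_one hy h hq.le
    have h2 : 0 ≤ (1 - y ^ q) / q := div_nonneg (by linarith) hq.le
    rw [max_eq_left h2]
    linarith
  · have h1 := rpow_div_mono h hq hqp
    have h2 : (y ^ p - 1) / p ≤ y ^ p / p := by
      refine div_le_div_of_nonneg_right (by linarith) hp.le
    have h3 : (1 - y ^ q) / q = -((y ^ q - 1) / q) := by ring
    have h4 : 0 ≤ (y ^ q - 1) / q := div_nonneg (by linarith [Real.one_le_rpow h hq.le]) hq.le
    rw [h3, max_eq_right (by linarith)]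
    linarith

lemma tendsto_rpow_log {y : ℝ} (hy : 0 < y) :
    Tendsto (fun q : ℝ => (1 - y ^ q) / q) (𝓝[≠] 0) (𝓝 (-Real.log y)) := by
  have h1 := (Real.hasStrictDerivAt_const_rpow hy 0).hasDerivAt
  rw [Real.rpow_zero, one_mul, hasDerivAt_iff_tendsto_slope] at h1
  refine h1.neg.congr fun q => ?_
  rw [slope_def_field, Real.rpow_zero, sub_zero]
  ring

theorem neg_log_le {κ y : ℝ → ℝ} (hκ0 : ∀ w, 0 ≤ κ w) (hκi : Integrable κ) (hκm : ∫ w, κ w = 1 / 2)
    (hy : Continuous y) (hy0 : ∀ w, 0 ≤ y w) {B : ℝ} (hyB : ∀ w, y w ≤ B) {a R p : ℝ} (ha : 0 < a)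
    (hR : 1 ≤ R) (hp0 : 0 < p) (hp1 : p ≤ 1)
    (hmain : ∀ q : ℝ, 0 < q → q ≤ p → a ^ q ≤ R ^ q / 2 + ∫ w, κ w * y w ^ q) :
    ∫⁻ w, ENNReal.ofReal (κ w * max (-Real.log (y w)) 0) ≤
      ENNReal.ofReal ((R - 1) / 2 - Real.log a + 1 / p * ∫ w, κ w * y w ^ p) := by
  have hB0 : 0 ≤ B := (hy0 0).trans (hyB 0)
  have hyq : ∀ q : ℝ, 0 < q → Continuous fun w => y w ^ q := fun q hq =>
    hy.rpow_const fun _ => Or.inr hq.le
  have hint : ∀ q : ℝ, 0 < q → Integrable fun w => κ w * y w ^ q := by
    intro q hq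
    refine (hκi.mul_const (B ^ q)).mono' (hκi.aestronglyMeasurable.mul (hyq q hq).aestronglyMeasurable)
      (Eventually.of_forall fun w => ?_)
    rw [Real.norm_of_nonneg (mul_nonneg (hκ0 w) (Real.rpow_nonneg (hy0 w) _))]
    exact mul_le_mul_of_nonneg_left (Real.rpow_le_rpow (hy0 w) (hyB w) hq.le) (hκ0 w)
  -- the bound for every small `q`
  have hbd : ∀ q : ℝ, 0 < q → q ≤ p → ∫⁻ w, ENNReal.ofReal (κ w * max ((1 - y w ^ q) / q) 0) ≤
      ENNReal.ofReal ((R - 1) / 2 - Real.log a + 1 / p * ∫ w, κ w * y w ^ p) := by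
    intro q hq hqp
    have hq1 : q ≤ 1 := hqp.trans hp1
    have i1 : Integrable fun w => κ w * ((1 - y w ^ q) / q) := by
      have := ((hκi.sub (hint q hq)).div_const q)
      refine this.congr (Eventually.of_forall fun w => ?_)
      simp only [Pi.sub_apply]
      ring
    have i2 : Integrable fun w => κ w * (y w ^ p / p) := by
      have := (hint p hp0).div_const p
      refine this.congr (Eventually.of_forall fun w => ?_)
      simp only
      ring
    have i3 : Integrable fun w => κ w * max ((1 - y w ^ q) / q) 0 := by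
      have := i1.pos_part
      refine this.congr (Eventually.of_forall fun w => ?_)
      simp only
      rw [mul_max_of_nonneg _ _ (hκ0 w), mul_zero]
    rw [← ofReal_integral_eq_lintegral_ofReal i3 (Eventually.of_forall fun w =>
      mul_nonneg (hκ0 w) (le_max_right _ _))]
    refine ENNReal.ofReal_le_ofReal ?_
    calc ∫ w, κ w * max ((1 - y w ^ q) / q) 0 ≤ ∫ w, (κ w * ((1 - y w ^ q) / q) + κ w * (y w ^ p / p)) := by
          refine integral_mono i3 (i1.add i2) fun w => ?_
          simp only
          rw [← mul_add]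
          exact mul_le_mul_of_nonneg_left (pos_part_le (hy0 w) hq hqp) (hκ0 w)
      _ = (∫ w, κ w * ((1 - y w ^ q) / q)) + ∫ w, κ w * (y w ^ p / p) := integral_add i1 i2
      _ ≤ ((R - 1) / 2 - Real.log a) + 1 / p * ∫ w, κ w * y w ^ p := by
          refine add_le_add ?_ (le_of_eq ?_)
          · have e : ∫ w, κ w * ((1 - y w ^ q) / q) = (1 / 2 - ∫ w, κ w * y w ^ q) / q := by
              rw [← hκm, ← integral_sub hκi (hint q hq), ← integral_div]
              refine integral_congr_ae (Eventually.of_forall fun w => ?_)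
              simp only
              ring
            rw [e]
            have h1 := hmain q hq hqp
            have h2 : R ^ q ≤ 1 + q * (R - 1) := by
              have := rpow_one_add_le_one_add_mul_self (s := R - 1) (by linarith) hq.le hq1
              rwa [show 1 + (R - 1) = R by ring] at this
            have h3 : 1 + q * Real.log a ≤ a ^ q := by
              rw [Real.rpow_def_of_pos ha]
              have := Real.add_one_le_exp (Real.log a * q)
              linarith
            rw [div_le_iff₀ hq]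
            nlinarith
          · rw [← integral_const_mul]
            refine integral_congr_ae (Eventually.of_forall fun w => ?_)
            simp only
            ring
      _ = _ := by ring
  -- Fatou
  set qn : ℕ → ℝ := fun n => p / (n + 1) with hqn
  have hqn0 : ∀ n, 0 < qn n := fun n => by simp only [hqn]; positivity
  have hqnp : ∀ n, qn n ≤ p := fun n => by
    simp only [hqn]
    exact div_le_self hp0.le (by linarith [Nat.cast_nonneg (α := ℝ) n])
  have hqlim : Tendsto qn atTop (𝓝[≠] 0) := by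
    rw [tendsto_nhdsWithin_iff]
    refine ⟨?_, Eventually.of_forall fun n => (hqn0 n).ne'⟩
    have := tendsto_one_div_add_atTop_nhds_zero_nat (𝕜 := ℝ)
    have h2 := this.const_mul p
    rw [mul_zero] at h2
    refine h2.congr fun n => ?_
    simp only [hqn]
    ring
  have hmeas : ∀ n, AEMeasurable (fun w => ENNReal.ofReal (κ w * max ((1 - y w ^ qn n) / qn n) 0)) volume := by
    intro n
    refine AEMeasurable.ennreal_ofReal (hκi.aestronglyMeasurable.aemeasurable.mul ?_)
    refine Measurable.aemeasurable ?_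
    have := (hyq (qn n) (hqn0 n)).measurable
    fun_prop
  have hpt : ∀ w, ENNReal.ofReal (κ w * max (-Real.log (y w)) 0) ≤
      liminf (fun n => ENNReal.ofReal (κ w * max ((1 - y w ^ qn n) / qn n) 0)) atTop := by
    intro w
    rcases eq_or_lt_of_le (hy0 w) with h | h
    · rw [← h, Real.log_zero, neg_zero, max_self, mul_zero, ENNReal.ofReal_zero]
      exact zero_le
    · have h1 := (tendsto_rpow_log h).comp hqlim
      have h2 : Tendsto (fun n => ENNReal.ofReal (κ w * max ((1 - y w ^ qn n) / qn n) 0)) atTop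
          (𝓝 (ENNReal.ofReal (κ w * max (-Real.log (y w)) 0))) := by
        refine ENNReal.tendsto_ofReal (Tendsto.const_mul _ ?_)
        exact h1.max tendsto_const_nhds
      exact le_of_eq h2.liminf_eq.symm
  calc ∫⁻ w, ENNReal.ofReal (κ w * max (-Real.log (y w)) 0) ≤
      ∫⁻ w, liminf (fun n => ENNReal.ofReal (κ w * max ((1 - y w ^ qn n) / qn n) 0)) atTop :=
        lintegral_mono hpt
    _ ≤ liminf (fun n => ∫⁻ w, ENNReal.ofReal (κ w * max ((1 - y w ^ qn n) / qn n) 0)) atTop :=
        lintegral_liminf_le' hmeas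
    _ ≤ _ := by
        refine liminf_le_of_le (by isBoundedDefault) fun b hb => ?_
        obtain ⟨n, hn⟩ := hb.exists
        exact hn.trans (hbd (qn n) (hqn0 n) (hqnp n))

end Pool.Agent.W354.ZP
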