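import Pool.Agent.W354.ZP.Uni

set_option autoImplicit false

/-! The moment of order `2/v` near the critical line, uniformly for `v ≥ √loglog T`. -/

namespace Pool.Agent.W354.ZP

open MeasureTheory Filter Topology Pool.Agent.H306R2 Pool.Agent.W184

/-- `v` is admissible for `T` -/
def Adm (T : ℝ) (v : ℕ) : Prop :=
  2 ≤ v ∧ Real.log (Real.log T) ≤ (v:ℝ) ^ 2 ∧ (v:ℝ) ^ 2 ≤ Real.log T

theorem uni_right : ∀ᶠ T : ℝ in atTop, ∀ v : ℕ, Adm T v → ∀ Δ : ℝ, T ^ (-(3:ℝ)) ≤ Δ → Δ ≤ 1 / 200 →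
    ∫ t in (0:ℝ)..T, zn (1 / 2 + Δ) t ^ (2 / (v:ℝ)) ≤ Real.exp 21 * T := by
  have ht := tail_ev (5 - 29 / 4) 0 (24 * (2 * Real.pi)) (by norm_num)
  filter_upwards [uni_half, ht, eventually_gt_atTop 1] with T hU ht hT1 v hv Δ hΔ hΔ1
  obtain ⟨hv, hvl, hvL⟩ := hv
  obtain ⟨-, -, h3, h4⟩ := kv hv
  have hv0 : (0:ℝ) < v := by exact_mod_cast (by omega : 0 < v)
  have hv2 : (2:ℝ) ≤ v := by exact_mod_cast hv
  have hT0 : 0 < T := by linarith
  have hΔ0 : 0 < Δ := lt_of_lt_of_le (Real.rpow_pos_of_pos hT0 _) hΔ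
  have hJ := hU v hv hvl hvL
  have hGB : ∀ x, qn (fun _ => 0) (2 / (v:ℝ)) (1 / 2) x ≤ 12 * (1 + |x|) := by
    intro x
    rw [qn_zero]
    exact zp_le (x := x) h3 h4 (σ := 1 / 2) (by norm_num) (by norm_num)
  have hE : (∫ t in (-(T ^ ((1:ℝ)/4)))..0, qn (fun _ => 0) (2 / (v:ℝ)) (1 / 2) t) +
    ∫ t in T..(T + T ^ ((1:ℝ)/4)), qn (fun _ => 0) (2 / (v:ℝ)) (1 / 2) t ≤ 72 * T := by
    simp_rw [qn_zero]
    exact edges_zp (p := 2 / (v:ℝ)) (σ := 1 / 2) h3 h4 (by norm_num) (by norm_num) hT1.le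
  have hM : (((8 * v : ℕ)) : ℝ) * (2 / (v:ℝ)) = 16 := by push_cast; field_simp; norm_num
  have hmain := half_fix (Q := fun _ => 0) (C1 := 0) (C2 := 1 + ∑' n : ℕ, 1 / (n : ℝ) ^ 2) (T := T)
    h3 le_rfl (show 1 ≤ 8 * v by omega) hM (differentiable_const _) (by simp) (fun z hz => zeta_far hz)
    hΔ0 (by linarith) hT1.le (by norm_num) hGB hE
  simp_rw [qn_zero] at hmain
  have hpi := Real.pi_pos
  have htail : T * (12 * (1 + T)) * (2 * Real.pi * (1 / Δ) *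
      (T ^ ((1:ℝ)/4)) ^ (-(29:ℝ))) ≤ T := by
    have b2 : (T ^ ((1:ℝ)/4)) ^ (-(29:ℝ)) = T ^ (-(29/4:ℝ)) := by
      rw [← Real.rpow_mul hT0.le]; norm_num
    have b3 : T * (12 * (1 + T)) ≤ 24 * T ^ (2:ℝ) := by
      have : T ^ (2:ℝ) = T ^ 2 := by exact_mod_cast Real.rpow_natCast T 2
      rw [this]
      nlinarith
    have b5 : 1 / Δ ≤ T ^ (3:ℝ) := by
      rw [Real.rpow_neg hT0.le] at hΔ
      rw [div_le_iff₀ hΔ0]
      have hT3 : 0 < T ^ (3:ℝ) := Real.rpow_pos_of_pos hT0 _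
      have := mul_le_mul_of_nonneg_left hΔ hT3.le
      rwa [mul_inv_cancel₀ hT3.ne'] at this
    have b4 : T ^ (2:ℝ) * T ^ (3:ℝ) * T ^ (-(29/4:ℝ)) = T ^ (5 - 29 / 4 : ℝ) := by
      rw [← Real.rpow_add hT0, ← Real.rpow_add hT0]; congr 1; norm_num
    rw [b2]
    calc T * (12 * (1 + T)) * (2 * Real.pi * (1 / Δ) * T ^ (-(29/4:ℝ))) ≤
        (24 * T ^ (2:ℝ)) * (2 * Real.pi * T ^ (3:ℝ) * T ^ (-(29/4:ℝ))) := by
          gcongr
      _ = 24 * (2 * Real.pi) * (T ^ (5 - 29 / 4 : ℝ) * Real.log T ^ (0:ℝ)) := by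
          rw [← b4, Real.rpow_zero]; ring
      _ ≤ 1 := ht
      _ ≤ T := hT1.le
  have hfac : (1 / 2 : ℝ) ≤ ((1 - 8 * Δ) * (1:ℝ) ^ Δ / (1 + Δ) ^ (2 * (8 * v))) ^ (2 / (v:ℝ)) := by
    rw [Real.one_rpow, mul_one]
    have hA : 0 < 1 - 8 * Δ := by linarith
    have hC : 0 < (1 + Δ) ^ (2 * (8 * v)) := by positivity
    rw [Real.rpow_def_of_pos (by positivity), Real.log_div hA.ne' hC.ne', Real.log_pow]
    have h1 : -(16 * Δ) ≤ Real.log (1 - 8 * Δ) := by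
      have := Real.one_sub_inv_le_log_of_pos hA
      refine le_trans ?_ this
      rw [neg_le_sub_iff_le_add, inv_le_iff_one_le_mul₀ hA]
      nlinarith
    have h2 : Real.log (1 + Δ) ≤ Δ := by
      have := Real.log_le_sub_one_of_pos (show 0 < 1 + Δ by linarith)
      linarith
    push_cast
    have h5 : (2 * (8 * (v:ℝ))) * Real.log (1 + Δ) ≤ (2 * (8 * (v:ℝ))) * Δ := by gcongr
    have h6 : -(1 / 2) ≤ (Real.log (1 - 8 * Δ) - (2 * (8 * (v:ℝ))) * Real.log (1 + Δ)) * (2 / (v:ℝ)) := by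
      have h7 : -(16 * Δ) - (2 * (8 * (v:ℝ))) * Δ ≤
          Real.log (1 - 8 * Δ) - (2 * (8 * (v:ℝ))) * Real.log (1 + Δ) := by linarith
      refine le_trans ?_ (mul_le_mul_of_nonneg_right h7 h3.le)
      have e : (-(16 * Δ) - (2 * (8 * (v:ℝ))) * Δ) * (2 / (v:ℝ)) = -(32 * Δ) / v - 32 * Δ := by
        field_simp; ring
      rw [e]
      have h8 : 32 * Δ / v ≤ 32 * Δ / 1 := by gcongr; linarith
      rw [neg_div]
      linarith
    have h9 := Real.exp_le_exp.mpr h6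
    refine le_trans ?_ h9
    linarith [Real.add_one_le_exp (-(1 / 2 : ℝ))]
  have hJ1n : 0 ≤ ∫ t in (0:ℝ)..T, zn (1 / 2 + Δ) t ^ (2 / (v:ℝ)) :=
    intervalIntegral.integral_nonneg hT0.le fun x _ => Real.rpow_nonneg (zn_nonneg _ _) _
  have h10 := mul_le_mul_of_nonneg_right hfac hJ1n
  have e21 : Real.exp 21 = Real.exp 20 * Real.exp 1 := by rw [← Real.exp_add]; norm_num
  have n3 : 10 ^ 7 ≤ Real.exp 20 := by
    have h := Real.exp_one_gt_d9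
    have e : Real.exp 20 = Real.exp 1 ^ 20 := by rw [← Real.exp_nat_mul]; norm_num
    rw [e]
    have h2 : (2.7182818283:ℝ) ^ 20 ≤ Real.exp 1 ^ 20 := pow_le_pow_left₀ (by norm_num) h.le 20
    linarith [show (10 ^ 7:ℝ) ≤ (2.7182818283:ℝ) ^ 20 by norm_num]
  have h11 : 2 * Real.exp 20 + 146 ≤ Real.exp 21 := by
    rw [e21]
    have h := Real.exp_one_gt_d9
    nlinarith
  have h12 := mul_le_mul_of_nonneg_right h11 hT0.le
  linarith

theorem uni_left : ∀ᶠ T : ℝ in atTop, ∀ v : ℕ, Adm T v → ∀ Δ : ℝ, T ^ (-(3:ℝ)) ≤ Δ →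
    Δ ≤ 10 / Real.log T →
    ∫ t in (0:ℝ)..T, zn (1 / 2 - Δ) t ^ (2 / (v:ℝ)) ≤ Real.exp 32 * T := by
  filter_upwards [uni_right, sqrtlog_ev 2000, eventually_gt_atTop 1] with T hU hL hT1 v hv Δ hΔ hΔ1
  have hv' := hv
  obtain ⟨hv, hvl, hvL⟩ := hv
  obtain ⟨-, -, h3, h4⟩ := kv hv
  have hv0 : (0:ℝ) < v := by exact_mod_cast (by omega : 0 < v)
  have hT0 : 0 < T := by linarith
  have hL0 : 0 < Real.log T := by linarith
  have hΔ0 : 0 < Δ := lt_of_lt_of_le (Real.rpow_pos_of_pos hT0 _) hΔ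
  have hΔ2 : Δ ≤ 1 / 200 := by
    refine hΔ1.trans ?_
    rw [div_le_div_iff₀ hL0 (by norm_num)]; linarith
  have hJ := hU v hv' Δ hΔ hΔ2
  have hc1 := zp_cont (σ := 1 / 2 - Δ) (p := 2 / (v:ℝ)) (by linarith) h3
  have hc2 := zp_cont (σ := 1 / 2 + Δ) (p := 2 / (v:ℝ)) (by linarith) h3
  have hX : T ^ (2 / (v:ℝ) * Δ) ≤ Real.exp 10 := by
    rw [Real.rpow_def_of_pos hT0]
    refine Real.exp_le_exp.mpr ?_
    have h5 : Real.log T * Δ ≤ 10 := by
      have := mul_le_mul_of_nonneg_left hΔ1 hL0.le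
      rwa [mul_div_cancel₀ _ hL0.ne'] at this
    have h6 : 2 / (v:ℝ) * (Real.log T * Δ) ≤ 1 * 10 :=
      mul_le_mul h4 h5 (by positivity) (by norm_num)
    linarith [show Real.log T * (2 / (v:ℝ) * Δ) = 2 / (v:ℝ) * (Real.log T * Δ) by ring]
  have h5 : ∫ t in (0:ℝ)..T, zn (1 / 2 - Δ) t ^ (2 / (v:ℝ)) ≤
      ∫ t in (0:ℝ)..T, Real.exp 10 * (zn (1 / 2 + Δ) t ^ (2 / (v:ℝ)) + 2000) := by
    refine intervalIntegral.integral_mono_on hT0.le (hc1.intervalIntegrable _ _)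
      (Continuous.intervalIntegrable (continuous_const.mul (hc2.add continuous_const)) _ _) fun x hx => ?_
    have h6 := fe_p (τ := x) (X := T) h3 h4 hΔ0.le (by linarith) hT1.le (by
      rw [abs_of_nonneg hx.1]; exact hx.2)
    refine h6.trans (mul_le_mul_of_nonneg_right hX ?_)
    have := Real.rpow_nonneg (zn_nonneg (1 / 2 + Δ) x) (2 / (v:ℝ))
    positivity
  refine h5.trans ?_
  rw [intervalIntegral.integral_const_mul, intervalIntegral.integral_add (hc2.intervalIntegrable _ _)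
    intervalIntegrable_const, intervalIntegral.integral_const, smul_eq_mul, sub_zero]
  have e32 : Real.exp 32 = Real.exp 10 * (Real.exp 21 * Real.exp 1) := by
    rw [← Real.exp_add, ← Real.exp_add]; norm_num
  rw [e32, mul_assoc]
  refine mul_le_mul_of_nonneg_left ?_ (Real.exp_pos _).le
  have h7 : 2000 ≤ Real.exp 21 := by
    have h := Real.exp_one_gt_d9
    have e : Real.exp 21 = Real.exp 1 ^ 21 := by rw [← Real.exp_nat_mul]; norm_num
    rw [e]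
    have h2 : (2.7182818283:ℝ) ^ 21 ≤ Real.exp 1 ^ 21 := pow_le_pow_left₀ (by norm_num) h.le 21
    linarith [show (2000:ℝ) ≤ (2.7182818283:ℝ) ^ 21 by norm_num]
  have h8 : Real.exp 21 + 2000 ≤ Real.exp 21 * Real.exp 1 := by
    have h := Real.exp_one_gt_d9
    nlinarith
  have h9 := mul_le_mul_of_nonneg_right h8 hT0.le
  linarith

/-- the moments near the critical line -/
theorem uni_near : ∀ᶠ T : ℝ in atTop, ∀ v : ℕ, Adm T v → ∀ σ : ℝ, T ^ (-(3:ℝ)) ≤ |σ - 1 / 2| →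
    |σ - 1 / 2| ≤ 10 / Real.log T →
    ∫ t in (0:ℝ)..T, zn σ t ^ (2 / (v:ℝ)) ≤ Real.exp 32 * T := by
  filter_upwards [uni_right, uni_left, sqrtlog_ev 2000, eventually_gt_atTop 1] with T hR hL hlog hT1 v hv σ h1 h2
  have hT0 : 0 < T := by linarith
  have hL0 : 0 < Real.log T := by linarith
  rcases le_total (1 / 2) σ with h | h
  · rw [abs_of_nonneg (by linarith)] at h1 h2
    have h3 := hR v hv (σ - 1 / 2) h1 (h2.trans (by
      rw [div_le_div_iff₀ hL0 (by norm_num)]; linarith))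
    rw [show 1 / 2 + (σ - 1 / 2) = σ by ring] at h3
    refine h3.trans (mul_le_mul_of_nonneg_right (Real.exp_le_exp.mpr (by norm_num)) hT0.le)
  · rw [abs_of_nonpos (by linarith)] at h1 h2
    have h3 := hL v hv (-(σ - 1 / 2)) h1 h2
    rwa [show 1 / 2 - -(σ - 1 / 2) = σ by ring] at h3

end Pool.Agent.W354.ZP
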