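import Pool.Agent.W354.ZP.LogM
import Pool.Agent.W354.ZP.Uni2

set_option autoImplicit false

/-! The negative part of `log |ζ(σ+it)|` near the critical line, averaged with the kernel of a strip. -/

namespace Pool.Agent.W354.ZP

open MeasureTheory Filter Topology Set Complex Pool.Agent.H306R2 Pool.Agent.W184

lemma zeta_sub_one_le {z : ℂ} (hz : 2 ≤ z.re) : ‖riemannZeta z - 1‖ ≤ 2 / 3 := by
  have h1 : 1 < z.re := by linarith
  have hs := (hasSum_zeta_two)
  have e1 : riemannZeta z = ∑' n : ℕ, 1 / ((n:ℂ) + 1) ^ z := zeta_eq_tsum_one_div_nat_add_one_cpow h1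
  have hsum : Summable fun n : ℕ => 1 / ((n:ℂ) + 1) ^ z := by
    have := (Complex.summable_one_div_nat_cpow (p := z)).mpr h1
    have h2 := (summable_nat_add_iff 1).mpr this
    refine h2.congr fun n => ?_
    push_cast
    rfl
  rw [e1, hsum.tsum_eq_zero_add]
  simp only [Nat.cast_zero, zero_add, one_cpow, div_one, add_sub_cancel_left]
  have hb : HasSum (fun n : ℕ => 1 / ((n:ℝ) + 2) ^ 2) (Real.pi ^ 2 / 6 - 1) := by
    have h3 := (hasSum_nat_add_iff' (f := fun n : ℕ => 1 / (n:ℝ) ^ 2) 2).mpr hs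
    simp only [Finset.sum_range_succ, Finset.sum_range_zero] at h3
    have e : Real.pi ^ 2 / 6 - (0 + 1 / ((0:ℕ):ℝ) ^ 2 + 1 / ((1:ℕ):ℝ) ^ 2) = Real.pi ^ 2 / 6 - 1 := by
      simp
    rw [e] at h3
    have e3 : (fun n : ℕ => 1 / ((n:ℝ) + 2) ^ 2) = fun n : ℕ => 1 / (((n + 2 : ℕ)):ℝ) ^ 2 := by
      funext n
      push_cast
      rfl
    rw [e3]
    exact h3
  refine (tsum_of_norm_bounded hb fun n => ?_).trans ?_
  · rw [norm_div, norm_one]
    have e2 : (((n + 1 : ℕ) : ℂ) + 1) = ((n + 2 : ℕ) : ℂ) := by push_cast; ring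
    rw [e2, Complex.norm_natCast_cpow_of_pos (by omega)]
    refine one_div_le_one_div_of_le (by positivity) ?_
    have h4 : (1:ℝ) ≤ ((n + 2 : ℕ) : ℝ) := by push_cast; linarith [Nat.cast_nonneg (α := ℝ) n]
    have h5 := Real.rpow_le_rpow_of_exponent_le h4 hz
    have h6 : ((n + 2 : ℕ) : ℝ) ^ (2:ℝ) = ((n:ℝ) + 2) ^ 2 := by
      rw [Real.rpow_two]; push_cast; rfl
    rwa [h6] at h5
  · have := Real.pi_lt_d2
    have h0 := Real.pi_pos
    nlinarith

lemma zeta_ge {z : ℂ} (hz : 2 ≤ z.re) : 1 / 3 ≤ ‖riemannZeta z‖ := by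
  have h1 := zeta_sub_one_le hz
  have h2 := norm_sub_norm_le (1:ℂ) (1 - riemannZeta z)
  rw [sub_sub_cancel, norm_one, norm_sub_rev] at h2
  linarith

lemma zeta_le {z : ℂ} (hz : 2 ≤ z.re) : ‖riemannZeta z‖ ≤ 5 / 3 := by
  have h1 := zeta_sub_one_le hz
  have h2 := norm_add_le (riemannZeta z - 1) 1
  rw [sub_add_cancel, norm_one] at h2
  linarith

lemma ratio_le_one {z : ℂ} (hz : 1 / 2 ≤ z.re) : ‖(z - 1) / z‖ ≤ 1 := by
  have hz0 : 0 < ‖z‖ := by
    have := Complex.re_le_norm z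
    linarith
  rw [norm_div, div_le_one hz0]
  have e1 : ‖z - 1‖ ^ 2 ≤ ‖z‖ ^ 2 := by
    rw [Complex.sq_norm, Complex.sq_norm, Complex.normSq_apply, Complex.normSq_apply]
    simp
    nlinarith
  exact (abs_le_of_sq_le_sq' e1 (norm_nonneg _)).2

lemma ratio_le {z : ℂ} (hz : 3 / 8 ≤ z.re) : ‖(z - 1) / z‖ ≤ 5 / 3 := by
  have hz0 : 0 < ‖z‖ := by
    have := Complex.re_le_norm z
    linarith
  rw [norm_div, div_le_iff₀ hz0]
  have e1 : ‖z - 1‖ ^ 2 ≤ (5 / 3 * ‖z‖) ^ 2 := by
    rw [mul_pow, Complex.sq_norm, Complex.sq_norm, Complex.normSq_apply, Complex.normSq_apply]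
    simp
    nlinarith [sq_nonneg z.im]
  exact (abs_le_of_sq_le_sq' e1 (by positivity)).2

/-- the auxiliary function of a strip centred at `c` -/
noncomputable def Fa (c z : ℂ) : ℂ := Zt z / z * Complex.exp ((z - c) ^ 2)

lemma Fa_norm (c : ℂ) {z : ℂ} (hz : 0 < z.re) (hz1 : z ≠ 1) :
    ‖Fa c z‖ = ‖riemannZeta z‖ * ‖(z - 1) / z‖ * Real.exp ((z.re - c.re) ^ 2 - (z.im - c.im) ^ 2) := by
  unfold Fa
  rw [norm_mul, ← zeta_eq_pos hz hz1, Complex.norm_exp, mul_comm (z - 1), mul_div_assoc, norm_mul]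
  congr 2
  rw [pow_two, Complex.mul_re, Complex.sub_re, Complex.sub_im]
  ring

lemma Fa_diff (c : ℂ) {z : ℂ} (hz : 0 < z.re) : DifferentiableAt ℂ (Fa c) z := by
  unfold Fa
  have hz0 : z ≠ 0 := by rintro rfl; simp at hz
  refine ((Zt_differentiableAt hz).div differentiableAt_id hz0).mul (by fun_prop)

lemma Fa_bound {c : ℂ} (hc : c.re = 2) {z : ℂ} (hz : 3 / 8 ≤ z.re) (hz4 : z.re ≤ 4) :
    ‖Fa c z‖ ≤ 4 * (6 + |c.im|) * Real.exp 4 := by
  have hz0 : 0 < z.re := by linarith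
  have hne : z ≠ 0 := by rintro rfl; simp at hz0
  have hzn : 0 < ‖z‖ := norm_pos_iff.mpr hne
  have h1 : ‖Zt z / z‖ ≤ 4 * (‖z‖ + 1) := by
    rw [norm_div, div_le_iff₀ hzn]
    have a1 := Hf_norm_le hz0
    have a2 : 1 / z.re ≤ 8 / 3 := by rw [div_le_iff₀ hz0]; linarith
    have a3 := norm_sub_le z 1
    rw [norm_one] at a3
    unfold Zt
    have a4 := norm_sub_le z (z * (z - 1) * Hf z)
    rw [norm_mul, norm_mul] at a4
    have a5 : ‖z‖ * ‖z - 1‖ * ‖Hf z‖ ≤ ‖z‖ * (‖z‖ + 1) * (8 / 3) := by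
      gcongr
      exact a1.trans a2
    nlinarith
  have h2 : ‖z‖ ≤ 4 + (|c.im| + |z.im - c.im|) := by
    have a1 := Complex.norm_le_abs_re_add_abs_im z
    have a2 : |z.im| ≤ |c.im| + |z.im - c.im| := by
      have := abs_add_le c.im (z.im - c.im)
      rwa [add_sub_cancel] at this
    rw [abs_of_pos hz0] at a1
    linarith
  have h3 : ‖Complex.exp ((z - c) ^ 2)‖ ≤ Real.exp 4 * Real.exp (-(z.im - c.im) ^ 2) := by
    rw [Complex.norm_exp, ← Real.exp_add]
    refine Real.exp_le_exp.mpr ?_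
    rw [pow_two, Complex.mul_re, Complex.sub_re, Complex.sub_im, hc]
    nlinarith
  have h4 := gauss_lin (a := 4 + |c.im|) (x := z.im - c.im) (by positivity)
  unfold Fa
  rw [norm_mul]
  calc ‖Zt z / z‖ * ‖Complex.exp ((z - c) ^ 2)‖ ≤
      (4 * (‖z‖ + 1)) * (Real.exp 4 * Real.exp (-(z.im - c.im) ^ 2)) := by gcongr
    _ ≤ (4 * (1 + (4 + |c.im| + |z.im - c.im|))) * (Real.exp 4 * Real.exp (-(z.im - c.im) ^ 2)) :=
        mul_le_mul_of_nonneg_right (by linarith) (by positivity)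
    _ = 4 * ((1 + (4 + |c.im| + |z.im - c.im|)) * Real.exp (-(z.im - c.im) ^ 2)) * Real.exp 4 := by ring
    _ ≤ 4 * (2 + (4 + |c.im|)) * Real.exp 4 := by gcongr
    _ = _ := by ring

lemma exp_int : Integrable (fun w : ℝ => Real.exp (-|w| / 4)) ∧ ∫ w : ℝ, Real.exp (-|w| / 4) ≤ 4 * Real.pi := by
  have hpi := Real.pi_pos
  have h0 : (0:ℝ) < 2 * Real.pi := by positivity
  have hb : ∀ w : ℝ, Real.exp (-|w| / 4) ≤ 8 * Real.pi * KS (2 * Real.pi) w := by
    intro w
    have e : 8 * Real.pi * KS (2 * Real.pi) w = 1 / Real.cosh (w / 4) := by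
      unfold KS
      have : Real.pi * w / (2 * (2 * Real.pi)) = w / 4 := by field_simp; ring
      rw [this]
      have := Real.cosh_pos (w / 4)
      field_simp
      ring
    rw [e, le_div_iff₀ (Real.cosh_pos _)]
    have h1 : Real.cosh (w / 4) ≤ Real.exp (|w| / 4) := by
      rw [← Real.cosh_abs, abs_div, abs_of_pos (show (0:ℝ) < 4 by norm_num), Real.cosh_eq]
      have : Real.exp (-(|w| / 4)) ≤ Real.exp (|w| / 4) :=
        Real.exp_le_exp.mpr (by have := abs_nonneg w; linarith)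
      linarith
    calc Real.exp (-|w| / 4) * Real.cosh (w / 4) ≤ Real.exp (-|w| / 4) * Real.exp (|w| / 4) := by gcongr
      _ = 1 := by rw [← Real.exp_add]; simp [neg_div]
  have hi : Integrable (fun w : ℝ => 8 * Real.pi * KS (2 * Real.pi) w) := (KS_integrable h0).const_mul _
  have hc : Continuous fun w : ℝ => Real.exp (-|w| / 4) := by fun_prop
  have h1 : Integrable (fun w : ℝ => Real.exp (-|w| / 4)) := by
    refine hi.mono' hc.aestronglyMeasurable (Eventually.of_forall fun w => ?_)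
    rw [Real.norm_of_nonneg (Real.exp_pos _).le]
    exact hb w
  refine ⟨h1, (integral_mono h1 hi hb).trans (le_of_eq ?_)⟩
  rw [integral_const_mul, KS_integral h0]
  ring

lemma KS_exp {Δ : ℝ} (h1 : 5 / 4 ≤ Δ) (h2 : Δ ≤ 13 / 8) (w : ℝ) : KS Δ w ≤ Real.exp (-|w| / 2) := by
  have hpi := Real.pi_gt_three
  have h0 : 0 < Δ := by linarith
  unfold KS
  have hc := Real.cosh_pos (Real.pi * w / (2 * Δ))
  rw [div_le_iff₀ (by positivity)]
  have h3 : Real.exp (|w| / 2) ≤ 2 * Real.cosh (Real.pi * w / (2 * Δ)) := by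
    rw [← Real.cosh_abs, Real.cosh_eq]
    have h4 : |w| / 2 ≤ |Real.pi * w / (2 * Δ)| := by
      rw [abs_div, abs_mul, abs_of_pos (show (0:ℝ) < 2 * Δ by linarith), abs_of_pos Real.pi_pos,
        div_le_div_iff₀ (by norm_num) (by linarith)]
      nlinarith [abs_nonneg w]
    have h5 := Real.exp_le_exp.mpr h4
    have h6 := Real.exp_pos (-|Real.pi * w / (2 * Δ)|)
    linarith
  have h7 : Real.exp (-|w| / 2) * Real.exp (|w| / 2) = 1 := by
    rw [← Real.exp_add]; simp [neg_div]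
  have h8 := Real.exp_pos (-|w| / 2)
  nlinarith [mul_le_mul_of_nonneg_left h3 h8.le, mul_pos h8 hc]

lemma KS_lin {Δ : ℝ} (h1 : 5 / 4 ≤ Δ) (h2 : Δ ≤ 13 / 8) {a : ℝ} (ha : 1 ≤ a) (w : ℝ) :
    KS Δ w * (a + |w|) ≤ 4 * a * Real.exp (-|w| / 4) := by
  have h3 := KS_exp h1 h2 w
  have h4 : a + |w| ≤ 4 * a * Real.exp (|w| / 4) := by
    have := Real.add_one_le_exp (|w| / 4)
    have h5 := abs_nonneg w
    nlinarith
  calc KS Δ w * (a + |w|) ≤ Real.exp (-|w| / 2) * (4 * a * Real.exp (|w| / 4)) := by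
        refine mul_le_mul h3 h4 (by positivity) (Real.exp_pos _).le
    _ = 4 * a * (Real.exp (-|w| / 2) * Real.exp (|w| / 4)) := by ring
    _ = _ := by rw [← Real.exp_add]; congr 2; ring

/-- the pointwise bound for the negative part of the logarithm -/
theorem neg_log_pt {σ t p : ℝ} (h1 : 3 / 8 ≤ σ) (h2 : σ ≤ 3 / 4) (hp0 : 0 < p) (hp1 : p ≤ 1) :
    ∫⁻ w, ENNReal.ofReal (KS (2 - σ) w * max (-Real.log (zn σ (t + w))) 0) ≤
      ENNReal.ofReal (Real.exp 6 + Real.exp 6 / p * ∫ w, KS (2 - σ) w * zn σ (t + w) ^ p) := by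
  set Δ : ℝ := 2 - σ with hΔ
  have hΔ0 : 0 < Δ := by linarith
  set c : ℂ := (2:ℂ) + t * I with hc
  have hcre : c.re = 2 := by simp [hc]
  have hcim : c.im = t := by simp [hc]
  have hcl : ∀ w : ℝ, (c - Δ + (w : ℂ) * I).re = σ := by intro w; simp [hcre, hΔ]
  have hcli : ∀ w : ℝ, (c - Δ + (w : ℂ) * I).im = t + w := by intro w; simp [hcim]
  have hcr : ∀ w : ℝ, (c + Δ + (w : ℂ) * I).re = 4 - σ := by intro w; simp [hcre, hΔ]; ring
  have hcri : ∀ w : ℝ, (c + Δ + (w : ℂ) * I).im = t + w := by intro w; simp [hcim]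
  set y : ℝ → ℝ := fun w => ‖Fa c (c - Δ + (w : ℂ) * I)‖ with hy
  have hyc : Continuous y := by
    rw [hy, continuous_iff_continuousAt]
    intro w
    refine ContinuousAt.norm ?_
    have h3 : ContinuousAt (Fa c) (c - Δ + (w : ℂ) * I) :=
      (Fa_diff c (by rw [hcl]; linarith)).continuousAt
    exact ContinuousAt.comp (f := fun w : ℝ => c - Δ + (w : ℂ) * I) h3 (by fun_prop)
  have hyB : ∀ w, y w ≤ 4 * (6 + |c.im|) * Real.exp 4 := fun w =>
    Fa_bound hcre (by rw [hcl]; linarith) (by rw [hcl]; linarith)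
  have hne1 : ∀ w : ℝ, c - Δ + (w : ℂ) * I ≠ 1 := by
    intro w h
    have := congrArg Complex.re h
    rw [hcl] at this
    simp at this
    linarith
  have hyz : ∀ w : ℝ, y w = zn σ (t + w) * ‖((c - Δ + (w : ℂ) * I) - 1) / (c - Δ + (w : ℂ) * I)‖ *
      Real.exp (Δ ^ 2 - w ^ 2) := by
    intro w
    simp only [hy]
    rw [Fa_norm c (by rw [hcl]; linarith) (hne1 w), hcl, hcli, hcre, hcim]
    congr 1
    · congr 1
      unfold zn
      rw [← hcl w, ← hcli w, Complex.re_add_im]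
    · congr 1
      rw [hΔ]; ring
  have hΔ3 : Δ ^ 2 ≤ 3 := by rw [hΔ]; nlinarith
  have hexp : ∀ w : ℝ, Real.exp (Δ ^ 2 - w ^ 2) ≤ Real.exp 3 := fun w =>
    Real.exp_le_exp.mpr (by nlinarith [sq_nonneg w])
  have hyle : ∀ w : ℝ, y w ≤ 5 / 3 * Real.exp 3 * zn σ (t + w) := by
    intro w
    rw [hyz]
    have a1 := ratio_le (z := c - Δ + (w : ℂ) * I) (by rw [hcl]; exact h1)
    have a2 := zn_nonneg σ (t + w)
    calc zn σ (t + w) * ‖((c - Δ + (w : ℂ) * I) - 1) / (c - Δ + (w : ℂ) * I)‖ *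
        Real.exp (Δ ^ 2 - w ^ 2) ≤ zn σ (t + w) * (5 / 3) * Real.exp 3 := by
          refine mul_le_mul (mul_le_mul_of_nonneg_left a1 a2) (hexp w) (Real.exp_pos _).le (by positivity)
      _ = _ := by ring
  have hFc : 1 / 6 ≤ ‖Fa c c‖ := by
    have hcne : c ≠ 1 := by
      intro h
      have := congrArg Complex.re h
      rw [hcre] at this
      norm_num at this
    rw [Fa_norm c (by rw [hcre]; norm_num) hcne, sub_self, sub_self]
    simp only [ne_eq, OfNat.ofNat_ne_zero, not_false_eq_true, zero_pow, sub_self, Real.exp_zero, mul_one]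
    have a1 := zeta_ge (z := c) (by rw [hcre])
    have a2 : 1 / 2 ≤ ‖(c - 1) / c‖ := by
      have hc0 : 0 < ‖c‖ := by
        have := Complex.re_le_norm c
        rw [hcre] at this
        linarith
      rw [norm_div, le_div_iff₀ hc0]
      have e1 : (1 / 2 * ‖c‖) ^ 2 ≤ ‖c - 1‖ ^ 2 := by
        rw [mul_pow, Complex.sq_norm, Complex.sq_norm, Complex.normSq_apply, Complex.normSq_apply]
        simp [hcre, hcim]
        nlinarith [sq_nonneg t]
      exact (abs_le_of_sq_le_sq' e1 (norm_nonneg _)).2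
    nlinarith
  have hmain : ∀ q : ℝ, 0 < q → q ≤ p → (1 / 6 : ℝ) ^ q ≤ (5 / 3 * Real.exp 3) ^ q / 2 +
      ∫ w, KS Δ w * y w ^ q := by
    intro q hq hqp
    have hs := strip_ineq (F := Fa c) (c := c) (Δ := Δ) (p := q) (C := 4 * (6 + |c.im|) * Real.exp 4)
      hΔ0 hq ?_ ?_ ?_
    · refine (Real.rpow_le_rpow (by norm_num) hFc hq.le).trans (hs.trans ?_)
      refine add_le_add ?_ le_rfl
      have hR : ∀ w : ℝ, ‖Fa c (c + Δ + (w : ℂ) * I)‖ ≤ 5 / 3 * Real.exp 3 := by
        intro w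
        have hne : c + Δ + (w : ℂ) * I ≠ 1 := by
          intro h
          have := congrArg Complex.re h
          rw [hcr] at this
          simp at this
          linarith
        rw [Fa_norm c (by rw [hcr]; linarith) hne, hcr, hcri, hcre, hcim]
        have a1 := zeta_le (z := c + Δ + (w : ℂ) * I) (by rw [hcr]; linarith)
        have a2 := ratio_le_one (z := c + Δ + (w : ℂ) * I) (by rw [hcr]; linarith)
        have a3 : Real.exp ((4 - σ - 2) ^ 2 - (t + w - t) ^ 2) ≤ Real.exp 3 := by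
          refine Real.exp_le_exp.mpr ?_
          nlinarith [sq_nonneg (t + w - t)]
        calc ‖riemannZeta (c + Δ + (w : ℂ) * I)‖ * ‖(c + Δ + (w : ℂ) * I - 1) / (c + Δ + (w : ℂ) * I)‖ *
            Real.exp ((4 - σ - 2) ^ 2 - (t + w - t) ^ 2) ≤ 5 / 3 * 1 * Real.exp 3 := by gcongr
          _ = _ := by ring
      have hki := KS_integrable hΔ0
      calc ∫ w, KS Δ w * ‖Fa c (c + Δ + (w : ℂ) * I)‖ ^ q ≤ ∫ w, KS Δ w * (5 / 3 * Real.exp 3) ^ q := by
            refine integral_mono_of_nonneg (Eventually.of_forall fun w => ?_) (hki.mul_const _)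
              (Eventually.of_forall fun w => ?_)
            · exact mul_nonneg (KS_nonneg hΔ0 w) (Real.rpow_nonneg (norm_nonneg _) _)
            · exact mul_le_mul_of_nonneg_left (Real.rpow_le_rpow (norm_nonneg _) (hR w) hq.le)
                (KS_nonneg hΔ0 w)
        _ = (5 / 3 * Real.exp 3) ^ q / 2 := by
            rw [integral_mul_const, KS_integral hΔ0]; ring
    · intro z hz
      have hz' : |z.re - c.re| < Δ := hz
      rw [hcre] at hz'
      have := (abs_lt.mp hz').1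
      exact (Fa_diff c (by linarith)).differentiableWithinAt
    · intro z hz
      have hz' : |z.re - c.re| ≤ Δ := hz
      rw [hcre] at hz'
      have := (abs_le.mp hz').1
      exact (Fa_diff c (by linarith)).continuousAt.continuousWithinAt
    · intro z hz
      rw [hcre] at hz
      have := abs_le.mp hz
      exact Fa_bound hcre (by linarith) (by linarith)
  have he3 : (1:ℝ) ≤ Real.exp 3 := Real.one_le_exp (by norm_num)
  have hkey := neg_log_le (KS_nonneg hΔ0) (KS_integrable hΔ0) (KS_integral hΔ0) hyc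
    (fun w => norm_nonneg _) hyB (a := 1 / 6) (R := 5 / 3 * Real.exp 3) (by norm_num) (by linarith)
    hp0 hp1 hmain
  -- comparison of the logarithms
  have hlog : ∀ w : ℝ, max (-Real.log (zn σ (t + w))) 0 ≤ max (-Real.log (y w)) 0 + 4 := by
    intro w
    rcases eq_or_lt_of_le (zn_nonneg σ (t + w)) with h | h
    · rw [← h, Real.log_zero, neg_zero, max_self]
      have := le_max_right (-Real.log (y w)) 0
      linarith
    · have hy0 : 0 ≤ y w := norm_nonneg _
      have hr0 : 0 < ‖((c - Δ + (w : ℂ) * I) - 1) / (c - Δ + (w : ℂ) * I)‖ := by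
        rw [norm_pos_iff]
        refine div_ne_zero (sub_ne_zero.mpr (hne1 w)) ?_
        intro h0
        have := congrArg Complex.re h0
        rw [hcl] at this
        simp at this
        linarith
      have hyp : 0 < y w := by
        rw [hyz]
        positivity
      have h3 : Real.log (y w) ≤ Real.log (zn σ (t + w)) + 4 := by
        have a1 := Real.log_le_log hyp (hyle w)
        rw [Real.log_mul (by positivity) h.ne', Real.log_mul (by norm_num) (Real.exp_pos _).ne',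
          Real.log_exp] at a1
        have a2 : Real.log (5 / 3) ≤ 1 := by
          have := Real.log_le_sub_one_of_pos (show (0:ℝ) < 5 / 3 by norm_num)
          linarith
        linarith
      refine max_le ?_ ?_
      · have := le_max_left (-Real.log (y w)) 0
        linarith
      · have := le_max_right (-Real.log (y w)) 0
        linarith
  have hconst : ∫⁻ w, ENNReal.ofReal (KS Δ w * 4) = ENNReal.ofReal 2 := by
    rw [← ofReal_integral_eq_lintegral_ofReal ((KS_integrable hΔ0).mul_const 4)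
      (Eventually.of_forall fun w => mul_nonneg (KS_nonneg hΔ0 w) (by norm_num)), integral_mul_const,
      KS_integral hΔ0]
    norm_num
  have hznc : Continuous fun w => zn σ (t + w) := (zn_cont (by linarith)).comp (by fun_prop)
  have hznB : ∀ w, zn σ (t + w) ^ p ≤ 12 * (1 + |t| + |w|) := by
    intro w
    refine (zp_le hp0 hp1 h1 h2).trans ?_
    have := abs_add_le t w
    nlinarith
  have hinn : 0 ≤ ∫ w, KS Δ w * y w ^ p :=
    integral_nonneg fun w => mul_nonneg (KS_nonneg hΔ0 w) (Real.rpow_nonneg (norm_nonneg _) _)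
  -- integrability of `KS zn^p`
  have hki2 : Integrable fun w => KS Δ w * zn σ (t + w) ^ p := by
    refine ((exp_int.1).const_mul (12 * (4 * (1 + |t|)))).mono' ?_ (Eventually.of_forall fun w => ?_)
    · exact ((KS_cont hΔ0).mul (hznc.rpow_const fun _ => Or.inr hp0.le)).aestronglyMeasurable
    · rw [Real.norm_of_nonneg (mul_nonneg (KS_nonneg hΔ0 w) (Real.rpow_nonneg (zn_nonneg _ _) _))]
      have a1 := KS_lin (Δ := Δ) (by rw [hΔ]; linarith) (by rw [hΔ]; linarith) (a := 1 + |t|)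
        (by linarith [abs_nonneg t]) w
      calc KS Δ w * zn σ (t + w) ^ p ≤ KS Δ w * (12 * (1 + |t| + |w|)) :=
            mul_le_mul_of_nonneg_left (hznB w) (KS_nonneg hΔ0 w)
        _ = 12 * (KS Δ w * (1 + |t| + |w|)) := by ring
        _ ≤ 12 * (4 * (1 + |t|) * Real.exp (-|w| / 4)) := by gcongr
        _ = _ := by ring
  have hcmp : ∫ w, KS Δ w * y w ^ p ≤ (5 / 3 * Real.exp 3) * ∫ w, KS Δ w * zn σ (t + w) ^ p := by
    rw [← integral_const_mul]
    refine integral_mono_of_nonneg (Eventually.of_forall fun w => mul_nonneg (KS_nonneg hΔ0 w)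
      (Real.rpow_nonneg (norm_nonneg _) _)) (hki2.const_mul _) (Eventually.of_forall fun w => ?_)
    simp only
    have a1 : y w ^ p ≤ (5 / 3 * Real.exp 3 * zn σ (t + w)) ^ p :=
      Real.rpow_le_rpow (norm_nonneg _) (hyle w) hp0.le
    rw [Real.mul_rpow (by positivity) (zn_nonneg _ _)] at a1
    have a2 : (5 / 3 * Real.exp 3) ^ p ≤ 5 / 3 * Real.exp 3 :=
      rpow_le_self_of_one_le' (by linarith) hp1
    have a3 := Real.rpow_nonneg (zn_nonneg σ (t + w)) p
    calc KS Δ w * y w ^ p ≤ KS Δ w * ((5 / 3 * Real.exp 3) * zn σ (t + w) ^ p) := by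
          refine mul_le_mul_of_nonneg_left (a1.trans ?_) (KS_nonneg hΔ0 w)
          gcongr
      _ = _ := by ring
  calc ∫⁻ w, ENNReal.ofReal (KS Δ w * max (-Real.log (zn σ (t + w))) 0) ≤
      ∫⁻ w, (ENNReal.ofReal (KS Δ w * max (-Real.log (y w)) 0) + ENNReal.ofReal (KS Δ w * 4)) := by
        refine lintegral_mono fun w => ?_
        rw [← ENNReal.ofReal_add (mul_nonneg (KS_nonneg hΔ0 w) (le_max_right _ _))
          (mul_nonneg (KS_nonneg hΔ0 w) (by norm_num)), ← mul_add]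
        exact ENNReal.ofReal_le_ofReal (mul_le_mul_of_nonneg_left (hlog w) (KS_nonneg hΔ0 w))
    _ = (∫⁻ w, ENNReal.ofReal (KS Δ w * max (-Real.log (y w)) 0)) + ENNReal.ofReal 2 := by
        rw [lintegral_add_right _ ?_, hconst]
        exact ((KS_cont hΔ0).mul continuous_const).measurable.ennreal_ofReal
    _ ≤ ENNReal.ofReal ((5 / 3 * Real.exp 3 - 1) / 2 - Real.log (1 / 6) + 1 / p * ∫ w, KS Δ w * y w ^ p) +
        ENNReal.ofReal 2 := by gcongr
    _ ≤ ENNReal.ofReal (Real.exp 6 + Real.exp 6 / p * ∫ w, KS Δ w * zn σ (t + w) ^ p) := by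
        have l6 : -Real.log (1 / 6) ≤ 5 := by
          rw [one_div, Real.log_inv, neg_neg]
          have := Real.log_le_sub_one_of_pos (show (0:ℝ) < 6 by norm_num)
          linarith
        have l6' : 0 ≤ -Real.log (1 / 6) := by
          rw [one_div, Real.log_inv, neg_neg]
          exact Real.log_nonneg (by norm_num)
        rw [← ENNReal.ofReal_add (by
          have : 0 ≤ 1 / p * ∫ w, KS Δ w * y w ^ p := mul_nonneg (by positivity) hinn
          linarith) (by norm_num)]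
        refine ENNReal.ofReal_le_ofReal ?_
        have e6 : Real.exp 6 = Real.exp 3 * Real.exp 3 := by rw [← Real.exp_add]; norm_num
        have g3 : 4 ≤ Real.exp 3 := by linarith [Real.add_one_le_exp (3:ℝ)]
        have b1 : (5 / 3 * Real.exp 3 - 1) / 2 + 5 + 2 ≤ Real.exp 6 := by
          rw [e6]; nlinarith
        have b2 : 1 / p * ∫ w, KS Δ w * y w ^ p ≤ Real.exp 6 / p * ∫ w, KS Δ w * zn σ (t + w) ^ p := by
          have hZ : 0 ≤ ∫ w, KS Δ w * zn σ (t + w) ^ p :=
            integral_nonneg fun w => mul_nonneg (KS_nonneg hΔ0 w) (Real.rpow_nonneg (zn_nonneg _ _) _)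
          calc 1 / p * ∫ w, KS Δ w * y w ^ p ≤ 1 / p * ((5 / 3 * Real.exp 3) *
                ∫ w, KS Δ w * zn σ (t + w) ^ p) := by gcongr
            _ = (5 / 3 * Real.exp 3) / p * ∫ w, KS Δ w * zn σ (t + w) ^ p := by ring
            _ ≤ _ := by
                gcongr
                rw [e6]; nlinarith
        linarith

end Pool.Agent.W354.ZP
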