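import Pool.Agent.W354.ZP.Coef

set_option autoImplicit false

/-! The moment of order `2/v` on the critical line, uniformly for `v ≥ √loglog T`. -/

namespace Pool.Agent.W354.ZP

open MeasureTheory Filter Topology Pool.Agent.H306R2 Pool.Agent.W184

lemma edges_sn_uni : ∀ᶠ T : ℝ in atTop, ∀ v : ℕ, 2 ≤ v →
    (∫ t in (-(T ^ ((1:ℝ)/4)))..0, sn v T (1 / 2) t) + ∫ t in T..(T + T ^ ((1:ℝ)/4)), sn v T (1 / 2) t ≤
      14 * T := by
  have h4 := small_pow (1 / 4 - 1) 1 2 (by norm_num)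
  filter_upwards [NT_ev, h4, eventually_gt_atTop (Real.exp 1)] with T a1 a2 a3 v hv
  obtain ⟨h1, h2, -, -⟩ := kv hv
  have hT1 : 1 < T := lt_trans (by
    have := Real.add_one_lt_exp (show (1:ℝ) ≠ 0 by norm_num)
    linarith) a3
  have hT0 : 0 < T := by linarith
  have hlog : 1 ≤ Real.log T := by
    rw [Real.le_log_iff_exp_le hT0]; exact a3.le
  have hN0 : (0:ℝ) < NT T := by exact_mod_cast a1.1
  have hs : ∑ n ∈ Finset.Icc 1 (NT T), dv (1 / (v:ℝ)) n ^ 2 * (n : ℝ) ^ (-(2 * (1 / 2 : ℝ))) ≤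
      1 + Real.log (NT T) := by
    refine le_trans (Finset.sum_le_sum fun n hn => ?_) (harm_le (NT T))
    rw [Finset.mem_Icc] at hn
    rw [show -(2 * (1 / 2 : ℝ)) = -1 by norm_num, Real.rpow_neg_one]
    have h5 : dv (1 / (v:ℝ)) n ^ 2 ≤ 1 := pow_le_one₀ (dv_nonneg h1.le n) (dv_le_one h1.le h2 n)
    have h6 : (0:ℝ) ≤ (n:ℝ)⁻¹ := by positivity
    calc dv (1 / (v:ℝ)) n ^ 2 * (n:ℝ)⁻¹ ≤ 1 * (n:ℝ)⁻¹ := mul_le_mul_of_nonneg_right h5 h6
      _ = 1 / (n:ℝ) := by rw [one_mul, one_div]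
  have hU : T ^ ((1:ℝ)/4) * (1 + Real.log (NT T)) ≤ T := by
    have h6 : Real.log (NT T) ≤ Real.log T := Real.log_le_log hN0 a1.2.2
    have h7 : T ^ ((1:ℝ)/4) * (2 * Real.log T) ≤ T := by
      have h8 : T ^ ((1:ℝ)/4) = T ^ ((1:ℝ)/4 - 1) * T := by
        rw [← Real.rpow_add_one hT0.ne']; congr 1; ring
      rw [Real.rpow_one] at a2
      rw [h8]
      calc T ^ ((1:ℝ)/4 - 1) * T * (2 * Real.log T) = (2 * (T ^ ((1:ℝ)/4 - 1) * Real.log T)) * T := by ring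
        _ ≤ 1 * T := mul_le_mul_of_nonneg_right a2 hT0.le
        _ = T := one_mul T
    refine le_trans (mul_le_mul_of_nonneg_left ?_ (by positivity)) h7
    linarith
  have hU0 : 0 < T ^ ((1:ℝ)/4) := Real.rpow_pos_of_pos hT0 _
  have m1 := (abs_le.mp (sn_mv hv T (σ := 1 / 2) le_rfl (-(T ^ ((1:ℝ)/4))) 0)).2
  have m2 := (abs_le.mp (sn_mv hv T (σ := 1 / 2) le_rfl T (T + T ^ ((1:ℝ)/4)))).2
  rw [show 0 - -(T ^ ((1:ℝ)/4)) = T ^ ((1:ℝ)/4) by ring] at m1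
  rw [show T + T ^ ((1:ℝ)/4) - T = T ^ ((1:ℝ)/4) by ring] at m2
  have h9 := mul_le_mul_of_nonneg_left hs hU0.le
  linarith [a1.2.1]

/-- `log N ≥ 0.95 log T` -/
lemma logNT_ev : ∀ᶠ T : ℝ in atTop, 95 / 100 * Real.log T ≤ Real.log (NT T) := by
  filter_upwards [logN_tendsto.eventually (lt_mem_nhds (show (95 / 100 : ℝ) < 1 by norm_num)),
    eventually_gt_atTop 1] with T hT hT1
  have hL := Real.log_pos hT1
  rw [lt_div_iff₀ hL] at hT
  exact hT.le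

lemma sqrtlog_ev (K : ℝ) : ∀ᶠ T : ℝ in atTop, K ≤ Real.log T :=
  Real.tendsto_log_atTop.eventually_ge_atTop K

/-- the factor gained by moving to the right -/
lemma fac_ge {v : ℕ} {L X N Δ : ℝ} (hv : 2 ≤ v) (hL : 10 ^ 6 ≤ L) (hvL : (v:ℝ) ^ 2 ≤ L) (hN : 1 ≤ N)
    (hX : X = Real.log N) (hXL : 95 / 100 * L ≤ X) (hΔ : Δ = 5 * v / L) :
    Real.exp 9 ≤ ((1 - 8 * Δ) * N ^ Δ / (1 + Δ) ^ (2 * (8 * v))) ^ (2 / (v:ℝ)) := by
  have hv0 : (0:ℝ) < v := by exact_mod_cast (by omega : 0 < v)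
  have hv2 : (2:ℝ) ≤ v := by exact_mod_cast hv
  have hL0 : 0 < L := by linarith
  have hN0 : 0 < N := by linarith
  have hvs : 1000 * (v:ℝ) ≤ L := by
    by_contra h
    push Not at h
    have h1 : 1000 < (v:ℝ) := by nlinarith
    nlinarith
  have hΔ0 : 0 < Δ := by rw [hΔ]; positivity
  have hΔ1 : Δ ≤ 1 / 200 := by
    rw [hΔ, div_le_iff₀ hL0]; linarith
  have hA : 0 < 1 - 8 * Δ := by linarith
  have hB : 0 < N ^ Δ := Real.rpow_pos_of_pos hN0 _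
  have hC : 0 < (1 + Δ) ^ (2 * (8 * v)) := by positivity
  rw [Real.rpow_def_of_pos (by positivity)]
  refine Real.exp_le_exp.mpr ?_
  rw [Real.log_div (by positivity) hC.ne', Real.log_mul hA.ne' hB.ne', Real.log_rpow hN0,
    Real.log_pow, ← hX]
  have h1 : -(16 * Δ) ≤ Real.log (1 - 8 * Δ) := by
    have := Real.one_sub_inv_le_log_of_pos hA
    refine le_trans ?_ this
    rw [neg_le_sub_iff_le_add, inv_le_iff_one_le_mul₀ hA]
    nlinarith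
  have h2 : Real.log (1 + Δ) ≤ Δ := by
    have := Real.log_le_sub_one_of_pos (show 0 < 1 + Δ by linarith)
    linarith
  push_cast
  have h3 : (2 * (8 * (v:ℝ))) * Real.log (1 + Δ) ≤ (2 * (8 * (v:ℝ))) * Δ := by gcongr
  have h4 : Δ * (X - 16 - 16 * v) ≤ Real.log (1 - 8 * Δ) + Δ * X - (2 * (8 * (v:ℝ))) * Real.log (1 + Δ) := by
    nlinarith
  have h5 : 9 ≤ Δ * (X - 16 - 16 * v) * (2 / (v:ℝ)) := by
    rw [hΔ]
    have e : 5 * (v:ℝ) / L * (X - 16 - 16 * v) * (2 / v) = 10 * (X - 16 - 16 * v) / L := by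
      field_simp; ring
    rw [e, le_div_iff₀ hL0]
    nlinarith
  exact h5.trans (mul_le_mul_of_nonneg_right h4 (by positivity))

/-- tail terms -/
lemma tail_ev (a b K : ℝ) (ha : a < 0) : ∀ᶠ T : ℝ in atTop, K * (T ^ a * Real.log T ^ b) ≤ 1 :=
  small_pow a b K ha

theorem uni_half : ∀ᶠ T : ℝ in atTop, ∀ v : ℕ, 2 ≤ v → Real.log (Real.log T) ≤ (v:ℝ) ^ 2 →
    (v:ℝ) ^ 2 ≤ Real.log T → ∫ t in (0:ℝ)..T, zn (1 / 2) t ^ (2 / (v:ℝ)) ≤ Real.exp 20 * T := by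
  have ht1 := tail_ev (3 - 29 / 4) 9 (96 * (2 * Real.pi * (Real.exp 1 * (Real.exp 1 * (Nat.factorial 16)))))
    (by norm_num)
  have ht2 := tail_ev (4 - 29 / 4) 1 (26 * (2 * Real.pi)) (by norm_num)
  filter_upwards [ht1, ht2, edges_sn_uni, NT_ev, logNT_ev, sqrtlog_ev (10 ^ 6), eventually_gt_atTop 1]
    with T ht1 ht2 hed hNT hlN hL6 hT1 v hv hvl hvL
  obtain ⟨-, -, h3, h4⟩ := kv hv
  have hv0 : (0:ℝ) < v := by exact_mod_cast (by omega : 0 < v)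
  have hv2 : (2:ℝ) ≤ v := by exact_mod_cast hv
  have hT0 : 0 < T := by linarith
  set L : ℝ := Real.log T with hL
  have hL0 : 0 < L := by linarith
  have hvs : 1000 * (v:ℝ) ≤ L := by
    by_contra h
    push Not at h
    have h1 : 1000 < (v:ℝ) := by nlinarith
    nlinarith
  set Δ : ℝ := 5 * v / L with hΔ
  have hΔ0 : 0 < Δ := by positivity
  have hΔ1 : Δ ≤ 1 / 200 := by
    rw [hΔ, div_le_iff₀ hL0]; linarith
  set p : ℝ := 2 / (v:ℝ) with hp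
  have hN1 : (1:ℝ) ≤ NT T := by exact_mod_cast hNT.1
  have hU0 : 0 < T ^ ((1:ℝ)/4) := Real.rpow_pos_of_pos hT0 _
  have hpi := Real.pi_pos
  -- reflection
  have hR := refl_fix (T := T) h3 h4 hΔ0 (by linarith) hT1.le (by positivity) (gauss_poly h3)
  have hinvΔ : 1 / Δ ≤ L := by
    rw [hΔ, one_div, inv_div, div_le_iff₀ (by positivity)]
    nlinarith
  have htail1 : T * (48 * T * (1 + T)) * (2 * Real.pi * (Real.exp (p * Δ ^ 2) *
      (Real.exp p * (Nat.factorial 16) / p ^ 16) / Δ) * (T ^ ((1:ℝ)/4)) ^ (-(29:ℝ))) ≤ T := by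
    have b1 : Real.exp (p * Δ ^ 2) ≤ Real.exp 1 := by
      refine Real.exp_le_exp.mpr ?_
      nlinarith
    have b0 : Real.exp p ≤ Real.exp 1 := Real.exp_le_exp.mpr h4
    have b2 : (T ^ ((1:ℝ)/4)) ^ (-(29:ℝ)) = T ^ (-(29/4:ℝ)) := by
      rw [← Real.rpow_mul hT0.le]; norm_num
    have b3 : T * (48 * T * (1 + T)) ≤ 96 * T ^ (3:ℝ) := by
      have : T ^ (3:ℝ) = T ^ 3 := by exact_mod_cast Real.rpow_natCast T 3
      rw [this]
      have c1 : 1 + T ≤ 2 * T := by linarith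
      have c2 : 0 ≤ T * (48 * T) := by positivity
      nlinarith
    have b4 : T ^ (3:ℝ) * T ^ (-(29/4:ℝ)) = T ^ (3 - 29 / 4 : ℝ) := by
      rw [← Real.rpow_add hT0]; congr 1
    have b5 : 1 / p ^ 16 ≤ L ^ 8 := by
      have e : 1 / p ^ 16 = ((v:ℝ) ^ 2 / 4) ^ 8 := by
        rw [hp]; field_simp; norm_num
      rw [e]
      refine pow_le_pow_left₀ (by positivity) ?_ 8
      linarith
    have b6 : Real.exp (p * Δ ^ 2) * (Real.exp p * (Nat.factorial 16) / p ^ 16) / Δ ≤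
        Real.exp 1 * (Real.exp 1 * (Nat.factorial 16)) * L ^ (9:ℝ) := by
      have e : L ^ (9:ℝ) = L ^ 9 := by exact_mod_cast Real.rpow_natCast L 9
      have e2 : Real.exp (p * Δ ^ 2) * (Real.exp p * (Nat.factorial 16) / p ^ 16) / Δ =
        Real.exp (p * Δ ^ 2) * (Real.exp p * (Nat.factorial 16)) * ((1 / p ^ 16) * (1 / Δ)) := by ring
      rw [e, e2, show L ^ 9 = L ^ 8 * L by ring]
      gcongr
    rw [b2]
    calc T * (48 * T * (1 + T)) * (2 * Real.pi * (Real.exp (p * Δ ^ 2) *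
          (Real.exp p * (Nat.factorial 16) / p ^ 16) / Δ) * T ^ (-(29/4:ℝ))) ≤
        (96 * T ^ (3:ℝ)) * (2 * Real.pi * (Real.exp 1 * (Real.exp 1 * (Nat.factorial 16)) * L ^ (9:ℝ)) *
          T ^ (-(29/4:ℝ))) := by
          gcongr
      _ = 96 * (2 * Real.pi * (Real.exp 1 * (Real.exp 1 * (Nat.factorial 16)))) *
          (T ^ (3 - 29 / 4 : ℝ) * L ^ (9:ℝ)) := by
          rw [← b4]; ring
      _ ≤ 1 := ht1
      _ ≤ T := hT1.le
  have hFc : Real.exp (p * Δ ^ 2) * (2 * T) ^ (p * Δ / 2) ≤ Real.exp (11 / 2) := by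
    rw [Real.rpow_def_of_pos (by linarith), ← Real.exp_add, Real.log_mul (by norm_num) hT0.ne', ← hL]
    refine Real.exp_le_exp.mpr ?_
    have e : p * Δ / 2 = 5 / L := by rw [hp, hΔ]; field_simp
    rw [e]
    have e2 : (Real.log 2 + L) * (5 / L) = 5 * Real.log 2 / L + 5 := by field_simp
    rw [e2]
    have l2 := Real.log_two_lt_d9
    have : 5 * Real.log 2 / L ≤ 1 / 10 := by
      rw [div_le_iff₀ hL0]; linarith
    nlinarith
  -- to the right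
  have hcz := zp_cont (σ := 1 / 2) (p := 2 / (v:ℝ)) (by norm_num) h3
  have hcs := sn_cont (v := v) T (1 / 2)
  have hcq := qn_cont (QQ_diff (v := v) T) (p := 2 / (v:ℝ)) (σ := 1 / 2) h3 (by norm_num)
  have hcz1 := zp_cont (σ := 1 / 2 + Δ) (p := 2 / (v:ℝ)) (by linarith) h3
  have hcs1 := sn_cont (v := v) T (1 / 2 + Δ)
  have hcq1 := qn_cont (QQ_diff (v := v) T) (p := 2 / (v:ℝ)) (σ := 1 / 2 + Δ) h3 (by linarith)
  have hGB : ∀ x, qn (QQ v T) (2 / (v:ℝ)) (1 / 2) x ≤ (12 + T ^ 2) * (1 + |x|) := by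
    intro x
    have b1 := tri2 hv T (1 / 2) x
    have b2 := zp_le (x := x) h3 h4 (σ := 1 / 2) (by norm_num) (by norm_num)
    have b3 : sn v T (1 / 2) x ≤ T ^ 2 := by
      unfold sn
      refine pow_le_pow_left₀ (norm_nonneg _) ?_ 2
      exact (SS_le hv T (by simp)).trans hNT.2.2
    have b4 : 0 ≤ T ^ 2 * |x| := by positivity
    nlinarith
  have hE : (∫ t in (-(T ^ ((1:ℝ)/4)))..0, qn (QQ v T) (2 / (v:ℝ)) (1 / 2) t) +
    ∫ t in T..(T + T ^ ((1:ℝ)/4)), qn (QQ v T) (2 / (v:ℝ)) (1 / 2) t ≤ 86 * T := by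
    have b1 := int_add_le hcq hcz hcs (a := -(T ^ ((1:ℝ)/4))) (b := 0) (by linarith)
      (tri2 hv T (1 / 2))
    have b2 := int_add_le hcq hcz hcs (a := T) (b := T + T ^ ((1:ℝ)/4)) (by linarith)
      (tri2 hv T (1 / 2))
    have b3 := edges_zp (p := 2 / (v:ℝ)) (σ := 1 / 2) h3 h4 (by norm_num) (by norm_num) hT1.le
    have b4 := hed v hv
    linarith
  have hM : (((8 * v : ℕ)) : ℝ) * (2 / (v:ℝ)) = 16 := by push_cast; field_simp; norm_num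
  have hQ1 : ∀ z : ℂ, 1 / 2 ≤ z.re → z.re ≤ 2 → ‖QQ v T z‖ ≤ (NT T : ℝ) ^ v := by
    intro z hz _
    unfold QQ
    rw [norm_pow]
    exact pow_le_pow_left₀ (norm_nonneg _) (SS_le hv T (by linarith)) v
  have hQ2 : ∀ z : ℂ, 2 ≤ z.re → ‖riemannZeta z - QQ v T z‖ * (NT T : ℝ) ^ z.re ≤
      (NT T:ℝ) ^ 2 * ∑' n : ℕ, 1 / (n : ℝ) ^ 2 := by
    intro z hz
    exact zeta_sub_pow_le (by omega) hNT.1 hz
  have hmain := half_fix (T := T) h3 hN1 (show 1 ≤ 8 * v by omega) hM (QQ_diff T) hQ1 hQ2 hΔ0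
    (by linarith) hT1.le (by positivity) hGB hE
  have htail2 : T * ((12 + T ^ 2) * (1 + T)) * (2 * Real.pi * (1 / Δ) *
      (T ^ ((1:ℝ)/4)) ^ (-(29:ℝ))) ≤ T := by
    have b2 : (T ^ ((1:ℝ)/4)) ^ (-(29:ℝ)) = T ^ (-(29/4:ℝ)) := by
      rw [← Real.rpow_mul hT0.le]; norm_num
    have b3 : T * ((12 + T ^ 2) * (1 + T)) ≤ 26 * T ^ (4:ℝ) := by
      have : T ^ (4:ℝ) = T ^ 4 := by exact_mod_cast Real.rpow_natCast T 4
      rw [this]
      have c0 : 1 ≤ T ^ 2 := one_le_pow₀ hT1.le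
      have c1 : 1 + T ≤ 2 * T := by linarith
      have c2 : 12 + T ^ 2 ≤ 13 * T ^ 2 := by linarith
      calc T * ((12 + T ^ 2) * (1 + T)) ≤ T * ((13 * T ^ 2) * (2 * T)) := by gcongr
        _ = 26 * T ^ 4 := by ring
    have b4 : T ^ (4:ℝ) * T ^ (-(29/4:ℝ)) = T ^ (4 - 29 / 4 : ℝ) := by
      rw [← Real.rpow_add hT0]; congr 1
    rw [b2]
    calc T * ((12 + T ^ 2) * (1 + T)) * (2 * Real.pi * (1 / Δ) * T ^ (-(29/4:ℝ))) ≤
        (26 * T ^ (4:ℝ)) * (2 * Real.pi * L * T ^ (-(29/4:ℝ))) := by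
          gcongr
      _ = 26 * (2 * Real.pi) * (T ^ (4 - 29 / 4 : ℝ) * L ^ (1:ℝ)) := by
          rw [← b4, Real.rpow_one]; ring
      _ ≤ 1 := ht2
      _ ≤ T := hT1.le
  have hfac := fac_ge (N := NT T) hv hL6 hvL hN1 rfl hlN hΔ
  -- mean squares
  have hs : ∀ σ : ℝ, 1 / 2 ≤ σ → ∫ t in (0:ℝ)..T, sn v T σ t ≤ 27 * T := by
    intro σ hσ
    have m := (abs_le.mp (sn_mv hv T (σ := σ) hσ 0 T)).2
    have m2 := sq_sum (v := v) (N := NT T) (T := T) (by omega) hNT.1 hNT.2.2 (by linarith) hvl hσ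
    rw [sub_zero] at m
    have e3 : Real.exp 3 ≤ 21 := by
      have h := Real.exp_one_lt_d9
      have e : Real.exp 3 = Real.exp 1 ^ 3 := by rw [← Real.exp_nat_mul]; norm_num
      rw [e]
      have h2 : Real.exp 1 ^ 3 ≤ 2.7182818286 ^ 3 := pow_le_pow_left₀ (Real.exp_pos 1).le h.le 3
      linarith [show (2.7182818286:ℝ) ^ 3 ≤ 21 by norm_num]
    have m3 : T * ∑ n ∈ Finset.Icc 1 (NT T), dv (1 / (v:ℝ)) n ^ 2 * (n : ℝ) ^ (-(2 * σ)) ≤ T * 21 :=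
      mul_le_mul_of_nonneg_left (m2.trans e3) hT0.le
    linarith [hNT.2.1]
  have hA0 := hs (1 / 2) le_rfl
  have hA1 := hs (1 / 2 + Δ) (by linarith)
  set J0 : ℝ := ∫ t in (0:ℝ)..T, zn (1 / 2) t ^ p with hJ0
  set J1 : ℝ := ∫ t in (0:ℝ)..T, zn (1 / 2 + Δ) t ^ p with hJ1
  set D0 : ℝ := ∫ t in (0:ℝ)..T, qn (QQ v T) p (1 / 2) t with hD0
  set D1 : ℝ := ∫ t in (0:ℝ)..T, qn (QQ v T) p (1 / 2 + Δ) t with hD1
  have k1 : J1 ≤ 27 * T + D1 := by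
    have := int_add_le hcz1 hcs1 hcq1 (a := 0) (b := T) hT0.le (tri1 hv T (1 / 2 + Δ))
    linarith
  have k2 : D0 ≤ J0 + 27 * T := by
    have := int_add_le hcq hcz hcs (a := 0) (b := T) hT0.le (tri2 hv T (1 / 2))
    linarith
  have hD1n : 0 ≤ D1 := intervalIntegral.integral_nonneg hT0.le fun x _ => qn_nonneg _ _ _ _
  have hJ1n : 0 ≤ J1 := intervalIntegral.integral_nonneg hT0.le fun x _ => Real.rpow_nonneg (zn_nonneg _ _) _
  have hJ0n : 0 ≤ J0 := intervalIntegral.integral_nonneg hT0.le fun x _ => Real.rpow_nonneg (zn_nonneg _ _) _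
  have k3 : Real.exp 9 * D1 ≤ D0 + 87 * T := by
    have := mul_le_mul_of_nonneg_right hfac hD1n
    linarith
  have k4 : J0 ≤ Real.exp (11 / 2) * (J1 + 6072 * T) + T := by
    refine hR.trans ?_
    have := mul_le_mul_of_nonneg_right hFc (show 0 ≤ J1 + 6072 * T by positivity)
    linarith
  -- numerics
  have n1 : Real.exp (11 / 2) ≤ 300 := by
    have h := Real.exp_one_lt_d9
    have e : Real.exp (11 / 2) ≤ Real.exp 1 ^ 6 / 1.6 := by
      rw [le_div_iff₀ (by norm_num)]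
      have e1 : (1.6:ℝ) ≤ Real.exp (1 / 2) := by
        have := Real.quadratic_le_exp_of_nonneg (show (0:ℝ) ≤ 1 / 2 by norm_num)
        linarith
      calc Real.exp (11 / 2) * 1.6 ≤ Real.exp (11 / 2) * Real.exp (1 / 2) := by gcongr
        _ = Real.exp 1 ^ 6 := by rw [← Real.exp_add, ← Real.exp_nat_mul]; norm_num
    refine e.trans ?_
    have h2 : Real.exp 1 ^ 6 ≤ 2.7182818286 ^ 6 := pow_le_pow_left₀ (Real.exp_pos 1).le h.le 6
    rw [div_le_iff₀ (by norm_num)]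
    linarith [show (2.7182818286:ℝ) ^ 6 ≤ 300 * 1.6 by norm_num]
  have n2 : 6000 ≤ Real.exp 9 := by
    have h := Real.exp_one_gt_d9
    have e : Real.exp 9 = Real.exp 1 ^ 9 := by rw [← Real.exp_nat_mul]; norm_num
    rw [e]
    have h2 : (2.7182818283:ℝ) ^ 9 ≤ Real.exp 1 ^ 9 := pow_le_pow_left₀ (by norm_num) h.le 9
    linarith [show (6000:ℝ) ≤ (2.7182818283:ℝ) ^ 9 by norm_num]
  have n3 : 10 ^ 7 ≤ Real.exp 20 := by
    have h := Real.exp_one_gt_d9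
    have e : Real.exp 20 = Real.exp 1 ^ 20 := by rw [← Real.exp_nat_mul]; norm_num
    rw [e]
    have h2 : (2.7182818283:ℝ) ^ 20 ≤ Real.exp 1 ^ 20 := pow_le_pow_left₀ (by norm_num) h.le 20
    linarith [show (10 ^ 7:ℝ) ≤ (2.7182818283:ℝ) ^ 20 by norm_num]
  have k5 : 6000 * D1 ≤ J0 + 114 * T := by
    have := mul_le_mul_of_nonneg_right n2 hD1n
    linarith
  have k6 : J0 ≤ 300 * (J1 + 6072 * T) + T := by
    refine k4.trans ?_
    have := mul_le_mul_of_nonneg_right n1 (show 0 ≤ J1 + 6072 * T by positivity)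
    linarith
  have k7 : J0 ≤ 10 ^ 7 * T := by linarith
  exact k7.trans (mul_le_mul_of_nonneg_right n3 hT0.le)

end Pool.Agent.W354.ZP
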